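import Mathlib

/-!
Ramsey's theorem for `m`-element sublists of a long list, in finite form.
-/

namespace H85.Blocks

/-- `H` is end-homogeneous for the colouring `χ` of `(m+1)`-sublists. -/
def EndHom {α K : Type} (χ : List α → K) (m : ℕ) : List α → Prop
  | [] => True
  | x :: H => (∀ l l', l.Sublist H → l'.Sublist H → l.length = m → l'.length = m →
      χ (x :: l) = χ (x :: l')) ∧ EndHom χ m H

theorem sum_filter_length {α K : Type} [Fintype K] [DecidableEq K] (c : α → K) (l : List α) :
    ∑ k : K, (l.filter (fun x => decide (c x = k))).length = l.length := by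
  induction l with
  | nil => simp
  | cons y l ih =>
    have h : ∀ k : K, ((y :: l).filter (fun x => decide (c x = k))).length
        = (if c y = k then 1 else 0) + (l.filter (fun x => decide (c x = k))).length := by
      intro k
      rw [List.filter_cons]
      split_ifs with h1 h2 h2
      · simp; ring
      · simp at h1; exact absurd h1 h2
      · simp [h2] at h1
      · simp
    rw [Finset.sum_congr rfl (fun k _ => h k), Finset.sum_add_distrib, ih]
    simp; ring

theorem exists_filter_long {α K : Type} [Fintype K] [DecidableEq K] (c : α → K) (l : List α)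
    (s : ℕ) (h : Fintype.card K * s < l.length) :
    ∃ k : K, s ≤ (l.filter (fun x => decide (c x = k))).length := by
  by_contra hcon
  push Not at hcon
  have h1 : ∑ k : K, (l.filter (fun x => decide (c x = k))).length ≤ ∑ _k : K, s :=
    Finset.sum_le_sum (fun k _ => (hcon k).le)
  rw [sum_filter_length] at h1
  simp at h1
  omega

theorem endHom_tail {α K : Type} {χ : List α → K} {m : ℕ} {H2 : List α} (h2 : H2.length = m) :
    ∀ (H1 : List α), EndHom χ m (H1 ++ H2) → ∀ x l, (x :: l).Sublist H1 → l.length = m →
      χ (x :: l) = χ (x :: H2) := by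
  intro H1
  induction H1 with
  | nil => intro _ x l hl; simp at hl
  | cons y H1 ih =>
    intro hE x l hl hlen
    rw [List.cons_append] at hE
    obtain ⟨hE1, hE2⟩ := hE
    cases hl with
    | cons _ h => exact ih hE2 x l h hlen
    | cons_cons _ h =>
      exact hE1 l H2 (h.trans (List.sublist_append_left _ _)) (List.sublist_append_right _ _) hlen h2

/-- Finite Ramsey theorem for sublists. -/
theorem ramsey (m : ℕ) : ∀ (K : Type) [Finite K] (s : ℕ), ∃ M : ℕ, ∀ (α : Type)
    (χ : List α → K) (L : List α), M ≤ L.length → ∃ H : List α, H.Sublist L ∧ H.length = s ∧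
      ∀ l l', l.Sublist H → l'.Sublist H → l.length = m → l'.length = m → χ l = χ l' := by
  induction m with
  | zero =>
    intro K _ s
    refine ⟨s, fun α χ L hL => ⟨L.take s, List.take_sublist _ _, by simp [hL], ?_⟩⟩
    intro l l' _ _ hl hl'
    rw [List.length_eq_zero_iff] at hl hl'
    rw [hl, hl']
  | succ m ih =>
    intro K _ s
    -- end-homogeneous lists of any length
    have hend : ∀ s : ℕ, ∃ M : ℕ, ∀ (α : Type) (χ : List α → K) (L : List α), M ≤ L.length →
        ∃ H : List α, H.Sublist L ∧ H.length = s ∧ EndHom χ m H := by
      intro s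
      induction s with
      | zero => exact ⟨0, fun α χ L _ => ⟨[], List.nil_sublist _, rfl, trivial⟩⟩
      | succ s ihs =>
        obtain ⟨M, hM⟩ := ihs
        obtain ⟨M', hM'⟩ := ih K M
        refine ⟨M' + 1, fun α χ L hL => ?_⟩
        match L, hL with
        | [], hL => simp at hL
        | x :: L', hL =>
          have hL' : M' ≤ L'.length := by simpa using hL
          obtain ⟨L'', hs1, hlen1, hhom⟩ := hM' α (fun l => χ (x :: l)) L' hL'
          obtain ⟨H, hs2, hlen2, hE⟩ := hM α χ L'' hlen1.ge
          refine ⟨x :: H, (hs2.trans hs1).cons_cons x, by simp [hlen2], ?_, hE⟩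
          intro l l' hl hl' hlm hlm'
          exact hhom l l' (hl.trans hs2) (hl'.trans hs2) hlm hlm'
    classical
    have := Fintype.ofFinite K
    obtain ⟨M, hM⟩ := hend (Fintype.card K * s + 1 + m)
    refine ⟨M, fun α χ L hL => ?_⟩
    obtain ⟨H, hs, hlen, hE⟩ := hM α χ L hL
    set H1 := H.take (Fintype.card K * s + 1) with hH1
    set H2 := H.drop (Fintype.card K * s + 1) with hH2
    have hH : H = H1 ++ H2 := (List.take_append_drop _ _).symm
    have hH1len : H1.length = Fintype.card K * s + 1 := by
      rw [hH1, List.length_take, hlen]; omega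
    have hH2len : H2.length = m := by
      rw [hH2, List.length_drop, hlen]; omega
    rw [hH] at hE
    obtain ⟨k, hk⟩ := exists_filter_long (fun x => χ (x :: H2)) H1 s (by omega)
    set G := (H1.filter (fun x => decide (χ (x :: H2) = k))) with hG
    refine ⟨G.take s, ?_, by rw [List.length_take]; omega, ?_⟩
    · refine (List.take_sublist _ _).trans (List.filter_sublist.trans ?_)
      exact (List.take_sublist _ _).trans hs
    · have key : ∀ l, l.Sublist (G.take s) → l.length = m + 1 → χ l = k := by
        intro l hl hlm
        match l, hlm with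
        | [], hlm => simp at hlm
        | x :: l, hlm =>
          have hlG : (x :: l).Sublist G := hl.trans (List.take_sublist _ _)
          have hx : x ∈ G := hlG.subset (by simp)
          have hxk : χ (x :: H2) = k := by
            rw [hG, List.mem_filter] at hx
            simpa using hx.2
          rw [endHom_tail hH2len H1 hE x l (hlG.trans List.filter_sublist) (by simpa using hlm), hxk]
      intro l l' hl hl' hlm hlm'
      rw [key l hl hlm, key l' hl' hlm']

end H85.Blocks
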