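import Mathlib

/-!
Realizable systems of labels for block maps, and the product lemma.
-/

namespace H85.Blocks

open Relation

/-- the alphabet: `0`, `1`, `2` stand for the letters 1, 2, 3 -/
abbrev A := Fin 3

/-- the index set of the six blocks -/
abbrev J := Fin 6

/-- The rearrangements of the template `112233`: each letter is used exactly twice. -/
def IsX (v : J → A) : Prop := ∀ a : A, (Finset.univ.filter (fun j => v j = a)).card = 2

instance : DecidablePred IsX := fun v => by unfold IsX; infer_instance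

/-- the set of rearrangements as a type -/
def X : Type := {v : J → A // IsX v}

/-- `1` if `x` is the block `j` and `0` otherwise -/
def ind (x : A ⊕ J) (j : J) : ℕ := if x = Sum.inr j then 1 else 0

@[simp] theorem ind_inl (a : A) (j : J) : ind (Sum.inl a) j = 0 := by simp [ind]

theorem ind_inr (i j : J) : ind (Sum.inr i) j = if i = j then 1 else 0 := by simp [ind]

/-- number of coordinates of `e` labelled by the block `j` -/
def cnt {ι : Type} [Fintype ι] (e : ι → A ⊕ J) (j : J) : ℕ := ∑ i, ind (e i) j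

/-- evaluation of a coordinate description at a word `v` -/
def ev (v : J → A) : A ⊕ J → A := Sum.elim id v

/-- `Φ` respects the relation `r` -/
def Resp {Λ K : Type} (r : Λ → Λ → Prop) (Φ : Λ → K) : Prop := ∀ a b, r a b → Φ a = Φ b

theorem Resp.eqvGen {Λ K : Type} {r : Λ → Λ → Prop} {Φ : Λ → K} (h : Resp r Φ) {a b : Λ}
    (hab : EqvGen r a b) : Φ a = Φ b := by
  induction hab with
  | rel a b h1 => exact h a b h1
  | refl a => rfl
  | symm a b _ ih => exact ih.symm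
  | trans a b c _ _ ih1 ih2 => exact ih1.trans ih2

/-- The system `(Λ, T, r)` can be realized for colourings with values in `K`. -/
def Good (K Λ : Type) (T : (X → Λ) → (J → ℕ) → Prop) (r : Λ → Λ → Prop) : Prop :=
  ∃ (ι : Type) (_ : Fintype ι) (d : ℕ), 0 < d ∧ ∀ F : (ι → A) → K,
    ∃ (W : Λ → Set (ι → A)) (Φ : Λ → K), Resp r Φ ∧ (∀ a, ∀ w ∈ W a, F w = Φ a) ∧
      ∀ t m, T t m → ∃ e : ι → A ⊕ J, (∀ j, cnt e j = m j * d) ∧
        ∀ v : X, (fun i => ev v.1 (e i)) ∈ W (t v)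

/-- The system `(Λ, T, r)` can be realized for all finite sets of colours. -/
def Real (Λ : Type) (T : (X → Λ) → (J → ℕ) → Prop) (r : Λ → Λ → Prop) : Prop :=
  ∀ (K : Type) [Finite K], Good K Λ T r

/-- substitution of labels -/
theorem Good.subst {K Λ Λ' : Type} {T : (X → Λ) → (J → ℕ) → Prop} {r : Λ → Λ → Prop}
    {T' : (X → Λ') → (J → ℕ) → Prop} {r' : Λ' → Λ' → Prop} (h : Good K Λ T r) (D : ℕ)
    (hD : 0 < D)
    (H : ∀ Φ : Λ → K, Resp r Φ → ∃ (W' : Λ' → Set Λ) (Φ' : Λ' → K), Resp r' Φ' ∧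
      (∀ a', ∀ a ∈ W' a', Φ a = Φ' a') ∧
      ∀ t' m', T' t' m' → ∃ t, T t (fun j => m' j * D) ∧ ∀ v, t v ∈ W' (t' v)) :
    Good K Λ' T' r' := by
  obtain ⟨ι, hι, d, hd, hF⟩ := h
  refine ⟨ι, hι, D * d, Nat.mul_pos hD hd, fun F => ?_⟩
  obtain ⟨W, Φ, hr, hW, hT⟩ := hF F
  obtain ⟨W', Φ', hr', hW', hT'⟩ := H Φ hr
  refine ⟨fun a' => {w | ∃ a ∈ W' a', w ∈ W a}, Φ', hr', ?_, ?_⟩
  · rintro a' w ⟨a, ha, hw⟩
    rw [hW a w hw, hW' a' a ha]
  · intro t' m' h'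
    obtain ⟨t, ht, htv⟩ := hT' t' m' h'
    obtain ⟨e, he, hev⟩ := hT t _ ht
    refine ⟨e, fun j => ?_, fun v => ⟨t v, htv v, hev v⟩⟩
    rw [he j, mul_assoc]

/-- functional substitution of labels -/
theorem Good.comap {K Λ Λ' : Type} {T : (X → Λ) → (J → ℕ) → Prop} {r : Λ → Λ → Prop}
    {T' : (X → Λ') → (J → ℕ) → Prop} {r' : Λ' → Λ' → Prop} (h : Good K Λ T r) (D : ℕ)
    (hD : 0 < D) (g : Λ' → Λ) (hr : ∀ a b, r' a b → EqvGen r (g a) (g b))
    (hT : ∀ t m, T' t m → T (fun v => g (t v)) (fun j => m j * D)) : Good K Λ' T' r' := by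
  refine h.subst D hD (fun Φ hΦ => ⟨fun a' => {g a'}, fun a' => Φ (g a'), ?_, ?_, ?_⟩)
  · intro a b hab
    exact hΦ.eqvGen (hr a b hab)
  · intro a' a ha
    rw [Set.mem_singleton_iff.1 ha]
  · intro t' m' h'
    exact ⟨_, hT t' m' h', fun v => rfl⟩

/-- change of the family and of the relation -/
theorem Real.mono {Λ : Type} {T : (X → Λ) → (J → ℕ) → Prop} {r : Λ → Λ → Prop}
    {T' : (X → Λ) → (J → ℕ) → Prop} {r' : Λ → Λ → Prop} (h : Real Λ T r)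
    (hr : ∀ a b, r' a b → EqvGen r a b) (hT : ∀ t m, T' t m → T t m) : Real Λ T' r' := by
  intro K _
  refine (h K).comap 1 one_pos id hr (fun t m ht => ?_)
  have : (fun j => m j * 1) = m := by funext j; simp
  rw [this]
  exact hT t m ht

/-- coarsening of the labels -/
theorem Real.coarsen {Λ Λ' : Type} {T : (X → Λ) → (J → ℕ) → Prop} {r : Λ → Λ → Prop}
    (h : Real Λ T r) (rep : Λ' → Λ) :
    Real Λ' (fun t' m => ∃ t, T t m ∧ ∀ v, EqvGen r (t v) (rep (t' v))) (fun _ _ => False) := by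
  intro K _
  refine (h K).subst 1 one_pos (fun Φ hΦ =>
    ⟨fun a' => {a | EqvGen r a (rep a')}, fun a' => Φ (rep a'), ?_, ?_, ?_⟩)
  · intro a b hab; exact hab.elim
  · intro a' a ha
    exact hΦ.eqvGen ha
  · rintro t' m' ⟨t, ht, htv⟩
    have : (fun j => m' j * 1) = m' := by funext j; simp
    rw [this]
    exact ⟨t, ht, htv⟩

/-- the basic system -/
def T0 (t : X → A) (m : J → ℕ) : Prop :=
  (∃ j : J, t = (fun v => v.1 j) ∧ m = Pi.single j 1) ∨ (∃ a : A, t = (fun _ => a) ∧ m = 0)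

theorem real_T0 : Real A T0 (fun _ _ => False) := by
  intro K _
  refine ⟨Unit, inferInstance, 1, one_pos, fun F => ⟨fun a => {fun _ => a}, fun a => F (fun _ => a),
    fun a b hab => hab.elim, ?_, ?_⟩⟩
  · intro a w hw
    rw [Set.mem_singleton_iff.1 hw]
  · rintro t m (⟨j, rfl, rfl⟩ | ⟨a, rfl, rfl⟩)
    · refine ⟨fun _ => Sum.inr j, fun j' => ?_, fun v => ?_⟩
      · simp only [cnt, Finset.univ_unique, Finset.sum_const, Finset.card_singleton,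
          one_smul, mul_one, ind_inr]
        by_cases h : j = j'
        · subst h; simp
        · simp [h, Ne.symm h]
      · simp [ev]
    · refine ⟨fun _ => Sum.inl a, fun j' => ?_, fun v => ?_⟩
      · simp [cnt]
      · simp [ev]

/-- constants are always available -/
theorem Real.addConst {Λ : Type} {T : (X → Λ) → (J → ℕ) → Prop} {r : Λ → Λ → Prop}
    (h : Real Λ T r) :
    Real Λ (fun t m => T t m ∨ (∃ t₀ m₀ v₀, T t₀ m₀ ∧ t = (fun _ => t₀ v₀) ∧ m = 0)) r := by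
  intro K _
  obtain ⟨ι, hι, d, hd, hF⟩ := h K
  refine ⟨ι, hι, d, hd, fun F => ?_⟩
  obtain ⟨W, Φ, hr, hW, hT⟩ := hF F
  refine ⟨W, Φ, hr, hW, ?_⟩
  rintro t m (ht | ⟨t₀, m₀, v₀, ht, rfl, rfl⟩)
  · exact hT t m ht
  · obtain ⟨e, he, hev⟩ := hT t₀ m₀ ht
    refine ⟨fun i => Sum.inl (ev v₀.1 (e i)), fun j => ?_, fun v => ?_⟩
    · simp [cnt]
    · simpa [ev] using hev v₀

/-- relabelling the blocks of a rearrangement -/
def X.comp (v : X) (g : J → J) (hg : Function.Bijective g) : X :=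
  ⟨fun j => v.1 (g j), fun a => by
    have h := v.2 a
    rw [← h]
    refine Finset.card_bij (fun j _ => g j) ?_ ?_ ?_
    · intro j hj
      simpa using hj
    · intro j _ j' _ h
      exact hg.1 h
    · intro j hj
      obtain ⟨j', rfl⟩ := hg.2 j
      exact ⟨j', by simpa using hj, rfl⟩⟩

/-- the family can be closed under relabelling of the blocks (for uniform degrees) -/
theorem Real.addPerm {Λ : Type} {T : (X → Λ) → (J → ℕ) → Prop} {r : Λ → Λ → Prop}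
    (h : Real Λ T r) :
    Real Λ (fun t m => ∃ (t₀ : X → Λ) (n : ℕ) (g : J → J) (hg : Function.Bijective g),
      T t₀ (fun _ => n) ∧ t = (fun v => t₀ (v.comp g hg)) ∧ m = fun _ => n) r := by
  intro K _
  obtain ⟨ι, hι, d, hd, hF⟩ := h K
  refine ⟨ι, hι, d, hd, fun F => ?_⟩
  obtain ⟨W, Φ, hr, hW, hT⟩ := hF F
  refine ⟨W, Φ, hr, hW, ?_⟩
  rintro t m ⟨t₀, n, g, hg, ht, rfl, rfl⟩
  obtain ⟨e, he, hev⟩ := hT t₀ _ ht
  refine ⟨fun i => Sum.map id g (e i), fun j => ?_, fun v => ?_⟩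
  · obtain ⟨j', rfl⟩ := hg.2 j
    rw [← he j']
    unfold cnt
    refine Finset.sum_congr rfl (fun i _ => ?_)
    have key : ∀ x : A ⊕ J, ind (Sum.map id g x) (g j') = ind x j' := by
      rintro (a | j'')
      · simp
      · simp [ind_inr, hg.1.eq_iff]
    exact key (e i)
  · have h2 := hev (v.comp g hg)
    have h3 : (fun i => ev v.1 (Sum.map id g (e i))) = fun i => ev (v.comp g hg).1 (e i) := by
      funext i
      rcases e i with a | j''
      · simp [ev]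
      · simp [ev, X.comp]
    rw [h3]
    exact h2

/-- product family -/
def Tprod {Λ₀ Λ₁ : Type} (T₀ : (X → Λ₀) → (J → ℕ) → Prop) (T₁ : (X → Λ₁) → (J → ℕ) → Prop)
    (t : X → Λ₀ × Λ₁) (m : J → ℕ) : Prop :=
  ∃ m₀ m₁, T₀ (fun v => (t v).1) m₀ ∧ T₁ (fun v => (t v).2) m₁ ∧ m = m₀ + m₁

/-- product relation -/
def rprod {Λ₀ Λ₁ : Type} (r₀ : Λ₀ → Λ₀ → Prop) (r₁ : Λ₁ → Λ₁ → Prop) (a b : Λ₀ × Λ₁) : Prop :=
  EqvGen r₀ a.1 b.1 ∧ EqvGen r₁ a.2 b.2

theorem Real.prod {Λ₀ Λ₁ : Type} [Finite Λ₀] {T₀ : (X → Λ₀) → (J → ℕ) → Prop}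
    {T₁ : (X → Λ₁) → (J → ℕ) → Prop} {r₀ : Λ₀ → Λ₀ → Prop} {r₁ : Λ₁ → Λ₁ → Prop}
    (h₀ : Real Λ₀ T₀ r₀) (h₁ : Real Λ₁ T₁ r₁) :
    Real (Λ₀ × Λ₁) (Tprod T₀ T₁) (rprod r₀ r₁) := by
  intro K _
  obtain ⟨ι₁, hι₁, d₁, hd₁, hF₁⟩ := h₁ {φ : Λ₀ → K // Resp r₀ φ}
  obtain ⟨ι₀, hι₀, d₀, hd₀, hF₀⟩ := h₀ ((ι₁ → A) → K)
  refine ⟨(ι₀ × Fin d₁) ⊕ (ι₁ × Fin d₀), inferInstance, d₀ * d₁, Nat.mul_pos hd₀ hd₁,
    fun F => ?_⟩
  obtain ⟨W₀, Φ₀, hr₀, hW₀, hT₀⟩ :=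
    hF₀ (fun w₀ w₁ => F (Sum.elim (fun p => w₀ p.1) (fun p => w₁ p.1)))
  obtain ⟨W₁, Φ₁, hr₁, hW₁, hT₁⟩ := hF₁ (fun w₁ => ⟨fun a => Φ₀ a w₁, fun a b hab =>
    congrFun (hr₀ a b hab) w₁⟩)
  refine ⟨fun p => {w | ∃ w₀ ∈ W₀ p.1, ∃ w₁ ∈ W₁ p.2,
    w = Sum.elim (fun p => w₀ p.1) (fun p => w₁ p.1)}, fun p => (Φ₁ p.2).1 p.1, ?_, ?_, ?_⟩
  · rintro ⟨a, b⟩ ⟨a', b'⟩ ⟨h1, h2⟩
    simp only at h1 h2 ⊢
    rw [hr₁.eqvGen h2, (Φ₁ b').2.eqvGen h1]
  · rintro ⟨a, b⟩ w ⟨w₀, hw₀, w₁, hw₁, rfl⟩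
    have h1 := congrFun (hW₀ a w₀ hw₀) w₁
    have h2 := hW₁ b w₁ hw₁
    simp only at h1 ⊢
    rw [h1, ← h2]
  · rintro t m ⟨m₀, m₁, ht₀, ht₁, rfl⟩
    obtain ⟨e₀, he₀, hev₀⟩ := hT₀ _ _ ht₀
    obtain ⟨e₁, he₁, hev₁⟩ := hT₁ _ _ ht₁
    refine ⟨Sum.elim (fun p => e₀ p.1) (fun p => e₁ p.1), fun j => ?_, fun v => ?_⟩
    · have he₀' := he₀ j
      have he₁' := he₁ j
      unfold cnt at he₀' he₁' ⊢
      rw [Fintype.sum_sum_type, Fintype.sum_prod_type, Fintype.sum_prod_type]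
      simp only [Sum.elim_inl, Sum.elim_inr, Finset.sum_const, Finset.card_univ,
        Fintype.card_fin, smul_eq_mul]
      rw [← Finset.mul_sum, ← Finset.mul_sum, he₀', he₁']
      simp only [Pi.add_apply]
      ring
    · refine ⟨_, hev₀ v, _, hev₁ v, ?_⟩
      funext x
      rcases x with p | p <;> rfl

/-- power family -/
def Tpow {Λ P : Type} [Fintype P] (T : (X → Λ) → (J → ℕ) → Prop) (t : X → P → Λ)
    (m : J → ℕ) : Prop :=
  ∃ ms : P → J → ℕ, (∀ i, T (fun v => t v i) (ms i)) ∧ m = ∑ i, ms i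

/-- power relation -/
def rpow {Λ P : Type} (r : Λ → Λ → Prop) (a b : P → Λ) : Prop := ∀ i, EqvGen r (a i) (b i)

theorem Real.pow {Λ : Type} [Finite Λ] {T : (X → Λ) → (J → ℕ) → Prop} {r : Λ → Λ → Prop}
    (h : Real Λ T r) (M : ℕ) : Real (Fin M → Λ) (Tpow T) (rpow r) := by
  induction M with
  | zero =>
    intro K _
    refine ⟨Empty, inferInstance, 1, one_pos, fun F => ⟨fun _ => Set.univ,
      fun _ => F (fun i => i.elim), fun a b _ => rfl, ?_, ?_⟩⟩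
    · intro a w _
      congr 1
      funext i
      exact i.elim
    · rintro t m ⟨ms, _, rfl⟩
      refine ⟨fun i => i.elim, fun j => ?_, fun v => trivial⟩
      simp [cnt]
  | succ M ih =>
    intro K _
    refine (Real.prod h ih K).comap 1 one_pos (fun a => (a 0, fun i => a i.succ)) ?_ ?_
    · intro a b hab
      exact EqvGen.rel _ _ ⟨hab 0, EqvGen.rel _ _ (fun i => hab i.succ)⟩
    · rintro t m ⟨ms, hT, rfl⟩
      refine ⟨ms 0, ∑ i : Fin M, ms i.succ, hT 0, ⟨fun i => ms i.succ, fun i => hT i.succ, rfl⟩, ?_⟩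
      funext j
      simp [Fin.sum_univ_succ]

end H85.Blocks
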