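import Pool.Agent.H85.Blocks.Path

/-!
The last levels: synthemes, totals and the constant label.
-/

namespace H85.Blocks

open Relation

theorem Fam_one {Λ : Type} (f : (J → A) → Λ) (n : ℕ) (g : J → J) (hg : Function.Bijective g) :
    Fam f n (fun v => f (v.comp g hg).1) (fun _ => n) := Or.inl ⟨g, hg, rfl, rfl⟩

theorem Fam_const {Λ : Type} (f : (J → A) → Λ) (n : ℕ) (c : Λ) (h : ∃ v, IsX v ∧ f v = c) :
    Fam f n (fun _ => c) 0 := by
  obtain ⟨v, hv, rfl⟩ := h
  exact Or.inr ⟨⟨v, hv⟩, rfl, rfl⟩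

/-- the four orders of the blocks with the first and the last block at the two ends -/
def ord4 : Fin 4 → J → J :=
  ![![0, 1, 2, 3, 4, 5], ![0, 4, 3, 1, 2, 5], ![0, 2, 1, 4, 3, 5], ![0, 3, 4, 2, 1, 5]]

theorem ord4_bij (i : Fin 4) : Function.Bijective (ord4 i) := by
  revert i; decide

/-- the four values of `delta` -/
def quad (v : J → A) : Fin 4 → Fin 3 := fun i => delta (fun j => v (ord4 i j))

/-- type of the multiset of the four values -/
def fP (v : J → A) : Fin 5 :=
  let k1 := ((Finset.univ : Finset (Fin 4)).filter (fun i => quad v i = 1)).card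
  let k2 := ((Finset.univ : Finset (Fin 4)).filter (fun i => quad v i = 2)).card
  if k2 = 4 then 0 else if k2 = 2 then 2 else if k2 = 1 then 3 else if k1 = 2 then 4 else 1

/-- representatives of the types -/
def rep2 : Fin 5 → Fin 4 → Fin 3 :=
  ![![2, 2, 2, 2], ![0, 0, 0, 0], ![0, 0, 2, 2], ![0, 1, 1, 2], ![0, 0, 1, 1]]

/-- words for the elements of the alternating group of degree four -/
def words4 : List (List (Fin 3)) :=
  [[], [0], [1], [0, 1], [2], [2, 2], [0, 2], [0, 2, 2], [1, 2], [1, 2, 2], [0, 1, 2], [0, 1, 2, 2]]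

theorem check2 (v : J → A) : IsX v → ∃ w ∈ words4, actW gen4 w (quad v) = rep2 (fP v) := by
  revert v
  refine all_words ?_
  decide +kernel

theorem real_fP : Real (Fin 5) (Fam fP 4) (fun _ _ => False) := by
  have hc : ∀ c, Fam delta 1 (fun _ => c) 0 := by
    intro c
    apply Fam_const
    have hc : c = 0 ∨ c = 1 ∨ c = 2 := by revert c; decide
    rcases hc with rfl | rfl | rfl
    · exact ⟨![0, 0, 1, 1, 2, 2], by decide +kernel⟩
    · exact ⟨![0, 1, 0, 1, 2, 2], by decide +kernel⟩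
    · exact ⟨![0, 1, 1, 0, 2, 2], by decide +kernel⟩
  have h1 := pow_sym4 real_delta hc
  have h2 := h1.coarsen rep2
  refine h2.fam fP 4 ⟨fun v => quad v.1, ?_, ?_⟩
  · exact ⟨fun _ _ => 1, fun i => Fam_one delta 1 (ord4 i) (ord4_bij i), by
      funext j; simp⟩
  · intro v
    obtain ⟨w, _, hw⟩ := check2 v.1 v.2
    rw [← hw]
    exact eqv_actW gen4 w _

/-- three relabellings: one for each pair of the syntheme -/
def ord3 : Fin 3 → J → J :=
  ![![0, 1, 2, 3, 4, 5], ![3, 0, 5, 1, 2, 4], ![1, 0, 5, 3, 4, 2]]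

theorem ord3_bij (i : Fin 3) : Function.Bijective (ord3 i) := by
  revert i; decide

/-- the three values of `fP` -/
def trip (v : J → A) : Fin 3 → Fin 5 := fun i => fP (fun j => v (ord3 i j))

/-- the label of the syntheme `{05, 12, 34}` -/
def tS (v : J → A) : Fin 3 :=
  if (v 0 = 0 ∧ v 5 = 0) ∨ (v 1 = 0 ∧ v 2 = 0) ∨ (v 3 = 0 ∧ v 4 = 0) then 2
  else if (v 0 = 1 ∧ v 5 = 1) ∨ (v 1 = 1 ∧ v 2 = 1) ∨ (v 3 = 1 ∧ v 4 = 1) then 1
  else 0

/-- representatives -/
def rep3 : Fin 3 → Fin 3 → Fin 5 := ![![3, 4, 4], ![1, 2, 2], ![0, 1, 1]]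

/-- the rotation of three coordinates -/
def gen3 : Fin 1 → Fin 3 → Fin 3 := ![![1, 2, 0]]

theorem gen3_bij (i : Fin 1) : Function.Bijective (gen3 i) := by
  revert i; decide

theorem check3 (v : J → A) : IsX v → ∃ w ∈ ([[], [0], [0, 0]] : List (List (Fin 1))),
    actW gen3 w (trip v) = rep3 (tS v) := by
  revert v
  refine all_words ?_
  decide +kernel

theorem real_tS : Real (Fin 3) (Fam tS 12) (fun _ _ => False) := by
  have hc : ∀ c, Fam fP 4 (fun _ => c) 0 := by
    intro c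
    apply Fam_const
    have hc : c = 0 ∨ c = 1 ∨ c = 2 ∨ c = 3 ∨ c = 4 := by revert c; decide
    rcases hc with rfl | rfl | rfl | rfl | rfl
    · exact ⟨![0, 1, 1, 2, 2, 0], by decide +kernel⟩
    · exact ⟨![2, 0, 0, 1, 1, 2], by decide +kernel⟩
    · exact ⟨![2, 1, 1, 0, 2, 0], by decide +kernel⟩
    · exact ⟨![2, 0, 1, 1, 0, 2], by decide +kernel⟩
    · exact ⟨![0, 0, 1, 2, 2, 1], by decide +kernel⟩
  have h0 := real_fP.pow 3
  have h1 := h0.rotList (fun x i => x (gen3 0 i)) (by decide +kernel)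
    (fun t m ht => Tpow_perm _ (gen3_bij 0) t m ht)
    (fun a b hab => EqvGen.rel _ _ (rpow_perm _ a b hab))
    (Finset.univ : Finset (Fin 3 → Fin 5)).toList (fun a _ => const_pow hc _)
  have h1' : Real (Fin 3 → Fin 5) (Tpow (Fam fP 4)) (Rgen gen3) := by
    refine h1.mono (fun a b hab => EqvGen.rel _ _ ?_) (fun t m ht => ht)
    obtain ⟨i, rfl⟩ := hab
    have hi : i = 0 := by revert i; decide
    subst hi
    exact Or.inr ⟨a, by simp, Or.inl rfl, rfl⟩
  have h2 := h1'.coarsen rep3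
  refine h2.fam tS 12 ⟨fun v => trip v.1, ?_, ?_⟩
  · exact ⟨fun _ _ => 4, fun i => Fam_one fP 4 (ord3 i) (ord3_bij i), by
      funext j; simp⟩
  · intro v
    obtain ⟨w, _, hw⟩ := check3 v.1 v.2
    rw [← hw]
    exact eqv_actW gen3 w _

/-- relabellings that carry the syntheme `{05, 12, 34}` to the five synthemes of a total -/
def ord5 : Fin 5 → J → J :=
  ![![0, 1, 2, 3, 4, 5], ![0, 1, 5, 2, 4, 3], ![0, 2, 3, 4, 5, 1], ![0, 1, 4, 3, 5, 2],
    ![0, 1, 3, 2, 5, 4]]

theorem ord5_bij (i : Fin 5) : Function.Bijective (ord5 i) := by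
  revert i; decide

/-- the five labels of the synthemes of the total -/
def quint (v : J → A) : List (Fin 3) :=
  (List.finRange 5).map (fun i => tS (fun j => v (ord5 i j)))

/-- the label of the total: `0` if the partition of the blocks given by `v` lies in the total -/
def uT (v : J → A) : Fin 2 := if (quint v).filter (fun x => x ≠ 0) = [2] then 0 else 1

theorem check4 (v : J → A) : IsX v → ((quint v).filter (fun x => x ≠ 0) = [2] ∧ uT v = 0) ∨
    (((quint v).filter (fun x => x ≠ 0) = [1, 2] ∨ (quint v).filter (fun x => x ≠ 0) = [2, 1]) ∧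
      uT v = 1) := by
  revert v
  refine all_words ?_
  decide +kernel

/-- representatives -/
def rep4 : Fin 2 → LL (Fin 3) 5 := ![⟨[2], by simp⟩, ⟨[1, 2], by simp⟩]

theorem real_uT : Real (Fin 2) (Fam uT 60) (fun _ _ => False) := by
  have hc : ∀ c, Fam tS 12 (fun _ => c) 0 := by
    intro c
    apply Fam_const
    have hc : c = 0 ∨ c = 1 ∨ c = 2 := by revert c; decide
    rcases hc with rfl | rfl | rfl
    · exact ⟨![0, 0, 1, 1, 2, 2], by decide +kernel⟩
    · exact ⟨![1, 0, 2, 0, 2, 1], by decide +kernel⟩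
    · exact ⟨![0, 1, 2, 1, 2, 0], by decide +kernel⟩
  have h1 := real_tS.copRev 0 (hc 0) 5 1 2 (hc 1) (hc 2) (by norm_num)
  have h2 := h1.coarsen rep4
  refine h2.fam uT 60 ⟨fun v => ⟨quint v.1, by simp [quint]⟩, ?_, ?_⟩
  · refine ⟨(List.finRange 5).map (fun i (v : X) => tS (fun j => v.1 (ord5 i j))),
      (List.finRange 5).map (fun _ _ => 12), ?_, by simp, ?_, fun v => ?_⟩
    · rw [List.forall₂_map_left_iff, List.forall₂_map_right_iff, List.forall₂_same]
      intro i _
      exact Fam_one tS 12 (ord5 i) (ord5_bij i)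
    · funext j
      simp
    · rw [List.map_map]
      rfl
  · intro v
    change EqvGen _ _ (rep4 (uT v.1))
    rcases check4 v.1 v.2 with ⟨h3, h4⟩ | ⟨h3 | h3, h4⟩
    · rw [h4]
      refine EqvGen.rel _ _ (Or.inl (Or.inl ?_))
      rw [h3]
      rfl
    · rw [h4]
      refine EqvGen.rel _ _ (Or.inl (Or.inl ?_))
      rw [h3]
      rfl
    · rw [h4]
      refine EqvGen.trans _ ⟨[2, 1], by simp⟩ _ (EqvGen.rel _ _ (Or.inl (Or.inl ?_)))
        (EqvGen.symm _ _ (EqvGen.rel _ _ (Or.inr ⟨rfl, rfl⟩)))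
      rw [h3]
      rfl

/-- relabellings that carry the total to the six totals -/
def ord6 : Fin 6 → J → J :=
  ![![0, 1, 2, 3, 4, 5], ![0, 1, 2, 3, 5, 4], ![0, 1, 2, 4, 3, 5], ![0, 1, 2, 4, 5, 3],
    ![0, 1, 2, 5, 3, 4], ![0, 1, 2, 5, 4, 3]]

theorem ord6_bij (i : Fin 6) : Function.Bijective (ord6 i) := by
  revert i; decide

/-- the six labels of the totals -/
def sext (v : J → A) : List (Fin 2) :=
  (List.finRange 6).map (fun i => uT (fun j => v (ord6 i j)))

theorem check5 (v : J → A) : IsX v → (sext v).filter (fun x => x ≠ 1) = [0, 0] := by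
  revert v
  refine all_words ?_
  decide +kernel

theorem real_const : Real Unit (Fam (fun _ => ()) 360) (fun _ _ => False) := by
  have hc : ∀ c, Fam uT 60 (fun _ => c) 0 := by
    intro c
    apply Fam_const
    have hc : c = 0 ∨ c = 1 := by revert c; decide
    rcases hc with rfl | rfl
    · exact ⟨![0, 1, 1, 2, 2, 0], by decide +kernel⟩
    · exact ⟨![0, 0, 1, 2, 1, 2], by decide +kernel⟩
  have h1 := real_uT.cop 1 (hc 1) 6
  have h2 := h1.coarsen (fun _ : Unit => (⟨[0, 0], by simp⟩ : LL (Fin 2) 6))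
  refine h2.fam (fun _ => ()) 360 ⟨fun v => ⟨sext v.1, by simp [sext]⟩, ?_, ?_⟩
  · refine ⟨(List.finRange 6).map (fun i (v : X) => uT (fun j => v.1 (ord6 i j))),
      (List.finRange 6).map (fun _ _ => 60), ?_, by simp, ?_, fun v => ?_⟩
    · rw [List.forall₂_map_left_iff, List.forall₂_map_right_iff, List.forall₂_same]
      intro i _
      exact Fam_one uT 60 (ord6 i) (ord6_bij i)
    · funext j
      simp
    · rw [List.map_map]
      rfl
  · intro v
    refine EqvGen.rel _ _ (Or.inl ?_)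
    rw [check5 v.1 v.2]
    rfl

/-- For every finite set of colours there is a finite index set and a degree that work. -/
theorem main (K : Type) [Finite K] : ∃ (ι : Type) (_ : Fintype ι) (d : ℕ), 0 < d ∧
    ∀ F : (ι → A) → K, ∃ e : ι → A ⊕ J, (∀ j, cnt e j = d) ∧
      ∀ v v' : J → A, IsX v → IsX v' → F (fun i => ev v (e i)) = F (fun i => ev v' (e i)) := by
  obtain ⟨ι, hι, d, hd, hF⟩ := real_const K
  refine ⟨ι, hι, 360 * d, by omega, fun F => ?_⟩
  obtain ⟨W, Φ, _, hW, hT⟩ := hF F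
  obtain ⟨e, he, hev⟩ := hT _ _ (Fam_one (fun _ => ()) 360 id Function.bijective_id)
  refine ⟨e, he, fun v v' hv hv' => ?_⟩
  rw [hW _ _ (hev ⟨v, hv⟩), hW _ _ (hev ⟨v', hv'⟩)]

end H85.Blocks
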