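import Pool.Agent.H85.Blocks.Rigid

/-!
The first level: the label `cls` (the number of letters 2 between the letters 1, with the two
patterns 1212 and 2121 still distinguished) can be realized.
-/

namespace H85.Blocks

theorem all_words {P : (J → A) → Prop}
    (h : ∀ a0 a1 a2 a3 a4 a5 : A, P ![a0, a1, a2, a3, a4, a5]) (v : J → A) : P v := by
  have e : v = ![v 0, v 1, v 2, v 3, v 4, v 5] := by
    funext j
    fin_cases j <;> rfl
  rw [e]
  exact h _ _ _ _ _ _

/-- class of the pattern -/
def cls (v : J → A) : Fin 4 :=
  if pl v = [0, 1] then 1 else if pl v = [1, 2] then 2 else if pl v = [0, 2] then 3 else 0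

theorem fact1 (v : J → A) : IsX v → (List.finRange 6).countP (fun j => v j = 1) = 2 := by
  revert v
  refine all_words ?_
  decide +kernel

theorem fact2 (v : J → A) : IsX v → ∃ u1 u2 : Fin 3, pl v = [(u1 : ℕ), (u2 : ℕ)] ∧
    (cls v = 0 → u1 = u2) ∧ (cls v = 1 → u1 = 0 ∧ u2 = 1) ∧ (cls v = 2 → u1 = 1 ∧ u2 = 2)
    ∧ (cls v = 3 → u1 = 0 ∧ u2 = 2) := by
  revert v
  refine all_words ?_
  decide +kernel

/-- van der Waerden's theorem for progressions of length three, in bounded form -/
theorem vdw3 (K : Type) [Finite K] : ∃ V : ℕ, ∀ c : ℕ → K, ∃ a β : ℕ, 0 < β ∧ β ≤ V ∧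
    a + 2 * β ≤ 2 * V ∧ ∀ x : Fin 3, c (a + β * x) = c a := by
  obtain ⟨ι, hι, hHJ⟩ := Combinatorics.Line.exists_mono_in_high_dimension (Fin 3) K
  refine ⟨Fintype.card ι, fun c => ?_⟩
  obtain ⟨l, cc, hl⟩ := hHJ (fun x => c (∑ i, (x i : ℕ)))
  have hsum : ∀ x : Fin 3, ∑ i, ((l x i : Fin 3) : ℕ) =
      (∑ i, ((l.idxFun i).elim 0 (fun y => (y : ℕ)))) +
        (Finset.univ.filter (fun i => l.idxFun i = none)).card * x := by
    intro x
    rw [Finset.card_filter, Finset.sum_mul, ← Finset.sum_add_distrib]
    refine Finset.sum_congr rfl (fun i _ => ?_)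
    rcases h : l.idxFun i with _ | y
    · simp [Combinatorics.Line.coe_apply, h]
    · simp [Combinatorics.Line.coe_apply, h]
  refine ⟨∑ i, ((l.idxFun i).elim 0 (fun y => (y : ℕ))),
    (Finset.univ.filter (fun i => l.idxFun i = none)).card, ?_, ?_, ?_, ?_⟩
  · obtain ⟨i, hi⟩ := l.proper
    exact Finset.card_pos.2 ⟨i, by simpa using hi⟩
  · exact Finset.card_le_univ _
  · have h2 := hsum 2
    have h3 : ∑ i, ((l 2 i : Fin 3) : ℕ) ≤ ∑ _i : ι, 2 := by
      refine Finset.sum_le_sum (fun i _ => ?_)
      have := (l 2 i : Fin 3).2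
      omega
    simp only [Finset.sum_const, Finset.card_univ, smul_eq_mul] at h3
    have h4 : (((2 : Fin 3) : ℕ)) = 2 := rfl
    rw [h4] at h2
    omega
  · intro x
    have h1 := hl x
    have h0 := hl 0
    simp only [hsum] at h1 h0
    rw [h1, ← h0]
    simp

theorem code_sorted : ∀ (l : List A) (k : ℕ), (k :: code k l).Pairwise (· ≤ ·) := by
  intro l
  induction l with
  | nil => intro k; simp [code_nil]
  | cons a l ih =>
    intro k
    rw [List.pairwise_cons]
    refine ⟨fun x hx => code_ge (a :: l) k x hx, ?_⟩
    rcases A_cases a with rfl | rfl | rfl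
    · rw [code_zero]; exact ih k
    · rw [code_one]; exact (List.pairwise_cons.1 (ih (k + 1))).2
    · rw [code_two]; exact (List.pairwise_cons.1 (ih k)).2

theorem code_le : ∀ (l : List A) (k x : ℕ), x ∈ code k l → x ≤ k + l.count 1 := by
  intro l
  induction l with
  | nil => intro k x hx; simp [code_nil] at hx
  | cons a l ih =>
    intro k x hx
    rcases A_cases a with rfl | rfl | rfl
    · rw [code_zero, List.mem_cons] at hx
      rcases hx with rfl | hx
      · omega
      · have := ih k x hx
        simpa using this
    · rw [code_one] at hx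
      have := ih (k + 1) x hx
      simp
      omega
    · rw [code_two] at hx
      have := ih k x hx
      simpa using this

/-- the canonical word with a given code -/
def can (N : ℕ) (c : List ℕ) : List A :=
  (build N 0 (c.map (fun x => (x, (0 : J))))).map (ev (fun _ => 0))

theorem tr_const : ∀ (c : List ℕ) (dr : ℕ),
    tr (fun _ => 0) dr (c.map (fun x => (x, (0 : J)))) = c.map (fun x => x + dr) := by
  intro c
  induction c with
  | nil => intro dr; simp [tr]
  | cons x c ih =>
    intro dr
    rw [List.map_cons, tr_cons_zero rfl, ih dr, List.map_cons]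

theorem map_fst_const (c : List ℕ) : (c.map (fun x => (x, (0 : J)))).map Prod.fst = c := by
  rw [List.map_map]
  exact List.map_id _

theorem code_can (N : ℕ) (c : List ℕ) (h : (0 :: c).Pairwise (· ≤ ·)) :
    code 0 (can N c) = c := by
  have h1 := code_build (fun _ => 0) N (c.map (fun x => (x, (0 : J)))) 0 0
    (by rw [map_fst_const]; exact h)
  rw [tr_const] at h1
  simpa [can] using h1

theorem count_can (N : ℕ) (c : List ℕ) (h : (0 :: c).Pairwise (· ≤ ·)) (hN : ∀ x ∈ c, x ≤ N) :
    (can N c).count 1 = N := by
  have h1 := count_build (fun _ => 0) N (c.map (fun x => (x, (0 : J)))) 0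
    (by rw [map_fst_const]; exact h) (by
      rw [map_fst_const]
      intro x hx
      rcases List.mem_cons.1 hx with rfl | hx
      · omega
      · exact hN x hx)
  simpa [can] using h1

theorem length_can (N : ℕ) (c : List ℕ) (h : (0 :: c).Pairwise (· ≤ ·)) (hN : ∀ x ∈ c, x ≤ N) :
    (can N c).length = N + c.length := by
  have h1 := length_build N (c.map (fun x => (x, (0 : J)))) 0
    (by rw [map_fst_const]; exact h) (by
      rw [map_fst_const]
      intro x hx
      rcases List.mem_cons.1 hx with rfl | hx
      · omega
      · exact hN x hx)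
  simpa [can] using h1

/-- list of shifts -/
def sl (g β a u1 u2 : ℕ) : List ℕ :=
  (List.range g).flatMap (fun _ => List.replicate β (a + β * u1) ++ List.replicate β (a + β * u2))

theorem sl_same (g β a u : ℕ) : sl g β a u u = List.replicate (g * (2 * β)) (a + β * u) := by
  unfold sl
  induction g with
  | zero => simp
  | succ g ih =>
    rw [List.range_succ, List.flatMap_append, ih]
    simp only [List.flatMap_cons, List.flatMap_nil, List.append_nil]
    rw [← List.replicate_add, ← List.replicate_add]
    congr 1
    ring

theorem lemD (K : Type) [Finite K] : ∃ m d : ℕ, 0 < d ∧ ∀ F₁ : List A → K,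
    (∀ l l', l.length ≤ m → l'.length ≤ m →
      l.filter (fun x => x ≠ 2) = l'.filter (fun x => x ≠ 2) → F₁ l = F₁ l') →
    ∃ P : List (A ⊕ J), P.length ≤ m ∧ (∀ j, (P.map (fun x => ind x j)).sum = d) ∧
      ∀ v v' : J → A, IsX v → IsX v' → cls v = cls v' →
        F₁ (P.map (ev v)) = F₁ (P.map (ev v')) := by
  obtain ⟨V, hV⟩ := vdw3 K
  set d := V.factorial with hd
  have hdpos : 0 < d := Nat.factorial_pos V
  set w := 2 * V + 2 * d with hw
  obtain ⟨B, hB⟩ := ramsey (2 * d) ((Fin (V + 1) × Fin (2 * V + 1) × Fin 3 × Fin 3) → K) (6 * d)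
  refine ⟨w * B + 6 * d, d, hdpos, fun F₁ hF₁ => ?_⟩
  set N := w * B + 2 * d with hN
  set F₂ : List ℕ → K := fun c => F₁ (can N c) with hF₂
  obtain ⟨H, hHs, hHl, hhom⟩ := hB ℕ (fun S q => F₂ (List.zipWith (fun s x => w * s + 2 * d + x) S
    (sl (d / (q.1 : ℕ)) q.1 q.2.1 q.2.2.1 q.2.2.2))) (List.range B) (by simp)
  have hHlt : H.Pairwise (· < ·) := (List.pairwise_lt_range).sublist hHs
  have hHB : ∀ s ∈ H, s < B := fun s hs => List.mem_range.1 (hHs.subset hs)
  set S₀ := H.take (2 * d) with hS₀
  obtain ⟨a, β, hβ, hβV, haβ, hc⟩ := hV (fun x => F₂ (S₀.map (fun s => w * s + 2 * d + x)))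
  have hdvd : β ∣ d := Nat.dvd_factorial hβ hβV
  obtain ⟨g, hg⟩ := hdvd
  have hgd : d / β = g := by rw [hg]; exact Nat.mul_div_cancel_left g hβ
  -- the pieces of `H`
  obtain ⟨C₁, hC₁, hHC₁⟩ := split_list (6 * β) g H (by rw [hHl, hg]; ring)
  have hex : ∀ i, ∃ Ci : J → List ℕ, i < g → ((∀ j, (Ci j).length = β) ∧
      C₁ i = (List.finRange 6).flatMap Ci) := by
    intro i
    by_cases hi : i < g
    · obtain ⟨C₂, hC₂, hCC₂⟩ := split_list β 6 (C₁ i) (hC₁ i hi)
      refine ⟨fun j => C₂ j, fun _ => ⟨fun j => hC₂ j j.2, ?_⟩⟩
      rw [hCC₂]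
      rfl
    · exact ⟨fun _ => [], fun h => absurd h hi⟩
  choose C hC using hex
  have hHC : H = (List.range g).flatMap (fun i => (List.finRange 6).flatMap (C i)) := by
    rw [hHC₁]
    apply flatMap_congr'
    intro i hi
    exact (hC i (List.mem_range.1 hi)).2
  have hCl : ∀ i < g, ∀ j, (C i j).length = β := fun i hi => (hC i hi).1
  set φ : ℕ → ℕ → ℕ := fun i s => w * s + a + 2 * β * (g - i) with hφ
  have hφ1 : ∀ i s, φ i s ≤ w * (s + 1) := by
    intro i s
    have h1 : 2 * β * (g - i) ≤ 2 * d := by
      rw [hg]
      calc 2 * β * (g - i) ≤ 2 * β * g := Nat.mul_le_mul_left _ (Nat.sub_le _ _)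
        _ = 2 * (β * g) := by ring
    simp only [hφ]
    have : w * (s + 1) = w * s + (2 * V + 2 * d) := by rw [mul_add, mul_one, ← hw]
    omega
  have hφ2 : ∀ i s, w * s ≤ φ i s := by
    intro i s
    simp only [hφ]
    omega
  set L : List (ℕ × J) := (List.range g).flatMap (fun i => (List.finRange 6).flatMap
        (fun j => (C i j).map (fun s => (φ i s, j)))) with hL
  set E : List (ℕ × ℕ) := (List.range g).flatMap (fun i => ((List.finRange 6).flatMap
        (C i)).map (fun s => (i, s))) with hE
  have hEH : E.map Prod.snd = H := by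
    rw [hE, hHC, List.map_flatMap]
    apply flatMap_congr'
    intro i _
    rw [List.map_map]
    exact List.map_id _
  have hEL : E.map (fun p => φ p.1 p.2) = L.map Prod.fst := by
    rw [hE, hL, List.map_flatMap, List.map_flatMap]
    apply flatMap_congr'
    intro i _
    rw [List.map_map, List.map_flatMap, List.map_flatMap]
    apply flatMap_congr'
    intro j _
    rw [List.map_map]
    rfl
  have hLs : (L.map Prod.fst).Pairwise (· ≤ ·) := by
    rw [← hEL, List.pairwise_map]
    rw [← hEH, List.pairwise_map] at hHlt
    refine hHlt.imp ?_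
    intro p q hpq
    calc φ p.1 p.2 ≤ w * (p.2 + 1) := hφ1 _ _
      _ ≤ w * q.2 := Nat.mul_le_mul_left _ hpq
      _ ≤ φ q.1 q.2 := hφ2 _ _
  have hLs0 : (0 :: L.map Prod.fst).Pairwise (· ≤ ·) := by
    rw [List.pairwise_cons]
    exact ⟨fun x _ => Nat.zero_le _, hLs⟩
  have hLB : ∀ x ∈ 0 :: L.map Prod.fst, x ≤ w * B := by
    intro x hx
    rcases List.mem_cons.1 hx with rfl | hx
    · exact Nat.zero_le _
    · rw [← hEL, List.mem_map] at hx
      obtain ⟨p, hp, rfl⟩ := hx
      have hp2 : p.2 ∈ H := by rw [← hEH]; exact List.mem_map_of_mem hp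
      exact (hφ1 _ _).trans (Nat.mul_le_mul_left _ (hHB _ hp2))
  have hLlen : L.length = 6 * d := by
    have h1 := congrArg List.length hEL
    have h2 := congrArg List.length hEH
    simp only [List.length_map] at h1 h2
    rw [← h1, h2, hHl]
  have hPlen : (build (w * B) 0 L).length = w * B + 6 * d := by
    rw [length_build (w * B) L 0 hLs0 hLB, hLlen]
    omega
  refine ⟨build (w * B) 0 L, hPlen.le, ?_, ?_⟩
  · -- degrees
    intro j₀
    rw [count_build_inr, hL, List.countP_flatMap]
    have h1 : ∀ i ∈ List.range g, ((List.countP fun p : ℕ × J => decide (p.2 = j₀)) ∘ fun i =>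
        (List.finRange 6).flatMap (fun j => (C i j).map (fun s => (φ i s, j)))) i = β := by
      intro i hi
      have hi' := hCl i (List.mem_range.1 hi)
      have h2 : ∀ js : List J, ((js.flatMap (fun j => (C i j).map (fun s => (φ i s, j)))).countP
          fun p : ℕ × J => decide (p.2 = j₀)) = js.count j₀ * β := by
        intro js
        induction js with
        | nil => simp
        | cons j js ih =>
          rw [List.flatMap_cons, List.countP_append, ih, List.count_cons]
          have h3 : ((C i j).map (fun s => (φ i s, j))).countP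
              (fun p : ℕ × J => decide (p.2 = j₀)) = if j = j₀ then β else 0 := by
            rw [List.countP_map]
            by_cases hj : j = j₀
            · subst hj
              rw [if_pos rfl, ← hi' j, List.countP_eq_length]
              intro s _
              simp
            · rw [if_neg hj, List.countP_eq_zero]
              intro s _
              simpa using hj
          rw [h3]
          by_cases hj : j = j₀
          · simp [hj]; ring
          · simp [hj]
      simp only [Function.comp]
      rw [h2]
      have h4 : ∀ j : J, (List.finRange 6).count j = 1 := by decide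
      rw [h4, one_mul]
    rw [List.map_congr_left h1]
    simp [hg, mul_comm]
  · -- the colours
    have key : ∀ v : J → A, IsX v → ∀ u1 u2 : Fin 3, pl v = [(u1 : ℕ), (u2 : ℕ)] →
        F₁ ((build (w * B) 0 L).map (ev v)) =
          F₂ (List.zipWith (fun s x => w * s + 2 * d + x) S₀ (sl g β a u1 u2)) := by
      intro v hv u1 u2 huv
      obtain ⟨ht1, ht2⟩ := tr_full v (fact1 v hv) β C φ g hCl
      rw [← hL] at ht1 ht2
      set S := (List.range g).flatMap (fun i => (pr v 0 (List.finRange 6)).flatMap
        (fun p => C i p.1)) with hS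
      have hprl : (pr v 0 (List.finRange 6)).length = 2 := by
        have := congrArg List.length huv
        simpa [pl] using this
      have hSs : S.Sublist H := by
        rw [hS, hHC]
        apply flatMap_sublist
        intro i _
        exact pr_sublist v (C i) _ 0
      have hSl : S.length = 2 * d := by
        rw [hS, length_flatMap_const _ (2 * β), List.length_range, hg]
        · ring
        · intro i hi
          rw [length_flatMap_const _ β, hprl]
          intro p _
          exact hCl i (List.mem_range.1 hi) _
      have hcode : tr v 0 L = List.zipWith (fun s x => w * s + 2 * d + x) S (sl g β a u1 u2) := by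
        rw [ht1]
        have hsl : sl g β a u1 u2 = (List.range g).flatMap (fun _ =>
            (pr v 0 (List.finRange 6)).flatMap (fun p => List.replicate β (a + β * p.2))) := by
          unfold sl
          apply flatMap_congr'
          intro i _
          have h5 : (pr v 0 (List.finRange 6)).flatMap (fun p => List.replicate β (a + β * p.2))
              = (pl v).flatMap (fun u => List.replicate β (a + β * u)) := by
            rw [pl, List.flatMap_map]
          rw [h5, huv]
          simp
        rw [hsl, hS, zipWith_flatMap]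
        · apply flatMap_congr'
          intro i hi
          have hi' := List.mem_range.1 hi
          rw [zipWith_flatMap]
          · apply flatMap_congr'
            intro p _
            rw [zipWith_replicate _ _ _ _ (hCl i hi' _)]
            apply List.map_congr_left
            intro s _
            simp only [hφ]
            have h6 : 2 * β * (g - i) + 2 * β * i = 2 * d := by
              rw [← mul_add, Nat.sub_add_cancel hi'.le, hg]; ring
            omega
          · intro p _
            rw [hCl i hi' _, List.length_replicate]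
        · intro i hi
          rw [length_flatMap_const _ β, length_flatMap_const _ β]
          · intro p _
            simp
          · intro p _
            exact hCl i (List.mem_range.1 hi) _
      have hcode0 : code 0 ((build (w * B) 0 L).map (ev v)) = tr v 0 L := by
        have := code_build v (w * B) L 0 0 hLs0
        simpa using this
      have hcount : ((build (w * B) 0 L).map (ev v)).count 1 = N := by
        rw [count_build v (w * B) L 0 hLs0 hLB, ht2, hN, hg]
        simp
        ring
      have hcs : (0 :: tr v 0 L).Pairwise (· ≤ ·) := by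
        rw [← hcode0]
        exact code_sorted _ 0
      have hcN : ∀ x ∈ tr v 0 L, x ≤ N := by
        intro x hx
        rw [← hcode0] at hx
        have := code_le _ 0 x hx
        rw [hcount] at this
        omega
      have htl : (tr v 0 L).length ≤ 2 * d := by
        rw [hcode, List.length_zipWith, hSl]
        exact min_le_left _ _
      have e1 : F₁ ((build (w * B) 0 L).map (ev v)) = F₁ (can N (tr v 0 L)) := by
        apply hF₁
        · rw [List.length_map, hPlen]
        · rw [length_can N _ hcs hcN, hN]
          omega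
        · apply filter_eq_of_code
          · rw [hcode0, code_can N _ hcs]
          · rw [hcount, count_can N _ hcs hcN]
      rw [e1, hcode]
      have hS₀l : S₀.length = 2 * d := by
        rw [hS₀, List.length_take, hHl]; omega
      have e2 := congrFun (hhom S S₀ hSs (List.take_sublist _ _) hSl hS₀l)
        (⟨β, by omega⟩, ⟨a, by omega⟩, u1, u2)
      simp only [hgd] at e2
      exact e2
    intro v v' hv hv' hvv
    obtain ⟨u1, u2, hu, h0, h1, h2, h3⟩ := fact2 v hv
    obtain ⟨u1', u2', hu', h0', h1', h2', h3'⟩ := fact2 v' hv'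
    rw [key v hv u1 u2 hu, key v' hv' u1' u2' hu']
    have hcases : cls v = 0 ∨ cls v = 1 ∨ cls v = 2 ∨ cls v = 3 := by
      generalize cls v = x
      revert x; decide
    rcases hcases with h | h | h | h
    · obtain rfl := h0 h
      obtain rfl := h0' (hvv ▸ h)
      have hS₀l : S₀.length = 2 * d := by
        rw [hS₀, List.length_take, hHl]; omega
      have e3 : ∀ u : Fin 3, F₂ (List.zipWith (fun s x => w * s + 2 * d + x) S₀ (sl g β a u u))
          = F₂ (S₀.map (fun s => w * s + 2 * d + a)) := by
        intro u
        rw [sl_same, zipWith_replicate _ _ _ _ (by rw [hS₀l, hg]; ring)]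
        exact hc u
      rw [e3, e3]
    · obtain ⟨rfl, rfl⟩ := h1 h
      obtain ⟨rfl, rfl⟩ := h1' (hvv ▸ h)
      rfl
    · obtain ⟨rfl, rfl⟩ := h2 h
      obtain ⟨rfl, rfl⟩ := h2' (hvv ▸ h)
      rfl
    · obtain ⟨rfl, rfl⟩ := h3 h
      obtain ⟨rfl, rfl⟩ := h3' (hvv ▸ h)
      rfl

end H85.Blocks
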