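import Pool.Agent.H85.Blocks.Ramsey
import Pool.Agent.H85.Blocks.Basic

/-!
The deletion operation (by Ramsey's theorem), the exchange operation for an involution and the
rotation operation for a map of order three.
-/

namespace H85.Blocks

open Relation

/-- the word with background `b` whose entries at the positions of the first list are those of the
second list -/
def place {P Λ : Type} [DecidableEq P] (b : Λ) : List P → List Λ → P → Λ
  | h :: H, a :: l => Function.update (place b H l) h a
  | [], _ => fun _ => b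
  | _, [] => fun _ => b

section place

variable {P Λ : Type} [DecidableEq P] (b : Λ)

theorem place_nil_left (l : List Λ) : place b ([] : List P) l = fun _ => b := by
  cases l <;> rfl

theorem place_nil_right (H : List P) : place b H [] = fun _ => b := by
  cases H <;> rfl

theorem place_cons (h : P) (H : List P) (a : Λ) (l : List Λ) :
    place b (h :: H) (a :: l) = Function.update (place b H l) h a := rfl

theorem place_notMem : ∀ (H : List P) (l : List Λ) (y : P), y ∉ H → place b H l y = b := by
  intro H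
  induction H with
  | nil => intro l y _; rw [place_nil_left]
  | cons h H ih =>
    intro l y hy
    cases l with
    | nil => rw [place_nil_right]
    | cons a l =>
      rw [place_cons, Function.update_of_ne (by rintro rfl; simp at hy)]
      exact ih l y (fun h' => hy (List.mem_cons_of_mem _ h'))

theorem place_skip (p : P) (H2 : List P) (hp : p ∉ H2) (l2 : List Λ) :
    ∀ (H1 : List P) (l1 : List Λ), H1.length = l1.length →
      place b (H1 ++ p :: H2) (l1 ++ b :: l2) = place b (H1 ++ H2) (l1 ++ l2) := by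
  intro H1
  induction H1 with
  | nil =>
    intro l1 hl
    cases l1 with
    | nil =>
      simp only [List.nil_append]
      rw [place_cons, Function.update_eq_self_iff, place_notMem b H2 l2 p hp]
    | cons => simp at hl
  | cons h H1 ih =>
    intro l1 hl
    cases l1 with
    | nil => simp at hl
    | cons a l1 =>
      simp only [List.cons_append]
      rw [place_cons, place_cons, ih l1 (by simpa using hl)]

theorem place_take : ∀ (H : List P) (l : List Λ) (n : ℕ), l.length ≤ n →
    place b (H.take n) l = place b H l := by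
  intro H
  induction H with
  | nil => intro l n _; simp
  | cons h H ih =>
    intro l n hl
    cases l with
    | nil => rw [place_nil_right, place_nil_right]
    | cons a l =>
      cases n with
      | zero => simp at hl
      | succ n =>
        rw [List.take_succ_cons, place_cons, place_cons, ih l n (by simpa using hl)]

theorem place_rel (r : Λ → Λ → Prop) : ∀ (H : List P) (l l' : List Λ),
    List.Forall₂ (EqvGen r) l l' → ∀ i, EqvGen r (place b H l i) (place b H l' i) := by
  intro H
  induction H with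
  | nil =>
    intro l l' _ i
    rw [place_nil_left, place_nil_left]
    exact EqvGen.refl _
  | cons h H ih =>
    intro l l' hl i
    cases hl with
    | nil => exact EqvGen.refl _
    | cons ha hl =>
      rw [place_cons, place_cons]
      by_cases hi : i = h
      · subst hi
        simpa using ha
      · rw [Function.update_of_ne hi, Function.update_of_ne hi]
        exact ih _ _ hl i

theorem place_T [Fintype P] {T : (X → Λ) → (J → ℕ) → Prop} (hb : T (fun _ => b) 0) :
    ∀ (H : List P) (ts : List (X → Λ)) (ms : List (J → ℕ)), List.Forall₂ T ts ms → H.Nodup →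
      ts.length ≤ H.length → ∃ ms' : P → J → ℕ,
        (∀ i, T (fun v => place b H (ts.map (fun t => t v)) i) (ms' i)) ∧
        ∑ i, ms' i = ms.sum ∧ ∀ i, i ∉ H → ms' i = 0 := by
  intro H
  induction H with
  | nil =>
    intro ts ms hT _ hlen
    have hts : ts = [] := by
      rw [← List.length_eq_zero_iff]; simpa using hlen
    subst hts
    cases hT
    refine ⟨fun _ => 0, fun i => ?_, by simp, fun _ _ => rfl⟩
    simpa [place_nil_left] using hb
  | cons h H ih =>
    intro ts ms hT hH hlen
    cases hT with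
    | nil =>
      refine ⟨fun _ => 0, fun i => ?_, by simp, fun _ _ => rfl⟩
      simpa [place_nil_right] using hb
    | @cons t m ts ms ht hT =>
      obtain ⟨ms', h1, h2, h3⟩ := ih ts ms hT hH.of_cons (by simpa using hlen)
      have hh : h ∉ H := (List.nodup_cons.1 hH).1
      refine ⟨Function.update ms' h m, fun i => ?_, ?_, ?_⟩
      · by_cases hi : i = h
        · subst hi
          simpa [place_cons] using ht
        · simpa [place_cons, Function.update_of_ne hi] using h1 i
      · rw [List.sum_cons, ← h2, Finset.sum_update_of_mem (Finset.mem_univ h)]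
        congr 1
        rw [← Finset.sum_sdiff (Finset.subset_univ {h}) (f := ms')]
        simp [h3 h hh]
      · intro i hi
        have hi1 : i ≠ h := fun h' => hi (h' ▸ List.mem_cons_self)
        rw [Function.update_of_ne hi1]
        exact h3 i (fun h' => hi (List.mem_cons_of_mem _ h'))

end place

/-- lists of length at most `m` -/
def LL (Λ : Type) (m : ℕ) : Type := {l : List Λ // l.length ≤ m}

instance {Λ : Type} [Finite Λ] (m : ℕ) : Finite (LL Λ m) := by
  have := List.finite_length_le Λ m
  exact this.to_subtype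

instance {Λ : Type} [DecidableEq Λ] (m : ℕ) : DecidableEq (LL Λ m) := by
  unfold LL; infer_instance

/-- the family of lists of members of `T` -/
def TL {Λ : Type} (T : (X → Λ) → (J → ℕ) → Prop) (k : ℕ) (t : X → LL Λ k) (m : J → ℕ) : Prop :=
  ∃ (ts : List (X → Λ)) (ms : List (J → ℕ)), List.Forall₂ T ts ms ∧ ts.length ≤ k ∧ m = ms.sum ∧
    ∀ v, (t v).1 = ts.map (fun f => f v)

/-- the relation on lists -/
def rL {Λ : Type} [DecidableEq Λ] (r : Λ → Λ → Prop) (b : Λ) (k : ℕ) (l l' : LL Λ k) : Prop :=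
  l.1.filter (fun x => x ≠ b) = l'.1.filter (fun x => x ≠ b) ∨ List.Forall₂ (EqvGen r) l.1 l'.1

/-- deletion of the background `b` -/
theorem Real.cop {Λ : Type} [Finite Λ] [DecidableEq Λ] {T : (X → Λ) → (J → ℕ) → Prop}
    {r : Λ → Λ → Prop} (h : Real Λ T r) (b : Λ) (hb : T (fun _ => b) 0) (k : ℕ) :
    Real (LL Λ k) (TL T k) (rL r b k) := by
  intro K _
  obtain ⟨M, hM⟩ := ramsey k (LL Λ k → K) (k + 1)
  refine (h.pow M K).subst 1 one_pos (fun Φ hΦ => ?_)
  obtain ⟨H, hHs, hHl, hhom⟩ := hM (Fin M) (fun S l => Φ (place b S l.1)) (List.finRange M)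
    (by simp)
  have hHn : H.Nodup := hHs.nodup (List.nodup_finRange M)
  refine ⟨fun l => {a | a = place b H l.1}, fun l => Φ (place b H l.1), ?_, ?_, ?_⟩
  · -- the relation
    have hdel : ∀ (l1 l2 : List Λ), (l1 ++ b :: l2).length ≤ k →
        Φ (place b H (l1 ++ b :: l2)) = Φ (place b H (l1 ++ l2)) := by
      intro l1 l2 hl
      have hl' : l1.length + l2.length + 1 ≤ k := by
        simp at hl; omega
      -- split `H`
      have hlt : l1.length < H.length := by omega
      set H1 := H.take l1.length with hH1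
      set p := H[l1.length] with hp
      set H2 := H.drop (l1.length + 1) with hH2
      have hH : H = H1 ++ p :: H2 := by
        rw [hH1, hp, hH2, List.getElem_cons_drop, List.take_append_drop]
      have hH1l : H1.length = l1.length := by
        rw [hH1, List.length_take]; omega
      have hpn : p ∉ H2 := by
        have h5 := hHn
        rw [hH, List.nodup_append] at h5
        exact (List.nodup_cons.1 h5.2.1).1
      have e1 : place b H (l1 ++ b :: l2) = place b (H1 ++ H2) (l1 ++ l2) := by
        conv_lhs => rw [hH]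
        exact place_skip b p H2 hpn l2 H1 l1 hH1l
      have hsub : (H1 ++ H2).Sublist H := by
        conv_rhs => rw [hH]
        exact (List.Sublist.refl H1).append (List.sublist_cons_self p H2)
      have hlen : (H1 ++ H2).length = k := by
        have h6 := congrArg List.length hH
        simp at h6 ⊢
        omega
      have e2 := congrFun (hhom (H1 ++ H2) (H.take k) hsub (List.take_sublist _ _) hlen
        (by rw [List.length_take]; omega)) ⟨l1 ++ l2, by simp; omega⟩
      simp only at e2
      rw [e1, e2, place_take b H _ k (by simp; omega)]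
    have hfil : ∀ (n : ℕ) (l : List Λ), l.length = n → l.length ≤ k →
        Φ (place b H l) = Φ (place b H (l.filter (fun x => x ≠ b))) := by
      intro n
      induction n using Nat.strong_induction_on with
      | _ n ih =>
        intro l hln hlk
        by_cases hbl : b ∈ l
        · obtain ⟨l1, l2, rfl⟩ := List.append_of_mem hbl
          rw [hdel l1 l2 hlk, ih (l1 ++ l2).length (by simp at hln ⊢; omega) (l1 ++ l2) rfl
            (by simp at hlk ⊢; omega)]
          simp
        · rw [List.filter_eq_self.2]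
          intro x hx
          have : x ≠ b := fun h' => hbl (h' ▸ hx)
          simpa using this
    rintro ⟨l, hl⟩ ⟨l', hl'⟩ (h1 | h1)
    · simp only at h1 ⊢
      rw [hfil _ l rfl hl, hfil _ l' rfl hl', h1]
    · simp only at h1 ⊢
      exact hΦ _ _ (fun i => place_rel b r H l l' h1 i)
  · rintro l a ha
    rw [Set.mem_ofPred_eq] at ha
    rw [ha]
  · rintro t m ⟨ts, ms, hT, hlen, rfl, htv⟩
    obtain ⟨ms', h1, h2, -⟩ := place_T b hb H ts ms hT hHn (by omega)
    refine ⟨fun v => place b H (ts.map (fun f => f v)), ⟨ms', fun i => h1 i, ?_⟩, fun v => ?_⟩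
    · rw [h2]
      funext j
      simp
    · rw [Set.mem_ofPred_eq, htv v]

theorem eqvGen_mono {Λ : Type} {r r' : Λ → Λ → Prop} (h : ∀ a b, r a b → r' a b) {a b : Λ}
    (hab : EqvGen r a b) : EqvGen r' a b := by
  induction hab with
  | rel a b h1 => exact EqvGen.rel _ _ (h a b h1)
  | refl a => exact EqvGen.refl _
  | symm a b _ ih => exact ih.symm
  | trans a b c _ _ ih1 ih2 => exact ih1.trans _ _ _ ih2

theorem eqvGen_map {Λ Λ' : Type} {r : Λ → Λ → Prop} {r' : Λ' → Λ' → Prop} (f : Λ → Λ')
    (h : ∀ a b, r a b → EqvGen r' (f a) (f b)) {a b : Λ} (hab : EqvGen r a b) :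
    EqvGen r' (f a) (f b) := by
  induction hab with
  | rel a b h1 => exact h a b h1
  | refl a => exact EqvGen.refl _
  | symm a b _ ih => exact ih.symm
  | trans a b c _ _ ih1 ih2 => exact ih1.trans _ _ _ ih2

/-- exchange of `a` and `τ a` for an involution `τ` -/
theorem Real.exch {Λ : Type} [Finite Λ] [DecidableEq Λ] {T : (X → Λ) → (J → ℕ) → Prop}
    {r : Λ → Λ → Prop} (h : Real Λ T r) (τ : Λ → Λ) (hτ : ∀ a, τ (τ a) = a)
    (hT : ∀ t m, T t m → T (fun v => τ (t v)) m) (hr : ∀ a b, r a b → EqvGen r (τ a) (τ b))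
    (a : Λ) (hc : T (fun _ => τ a) 0) : Real Λ T (fun x y => r x y ∨ (x = a ∧ y = τ a)) := by
  intro K _
  refine (h.cop (τ a) hc 2 K).comap 2 two_pos (fun x => ⟨[x, τ x], by simp⟩) ?_ ?_
  · rintro x y (hxy | ⟨rfl, rfl⟩)
    · refine EqvGen.rel _ _ (Or.inr ?_)
      exact List.Forall₂.cons (EqvGen.rel _ _ hxy) (List.Forall₂.cons (hr x y hxy) List.Forall₂.nil)
    · refine EqvGen.rel _ _ (Or.inl ?_)
      simp only [hτ]
      by_cases hx : x = τ x
      · rw [← hx]
      · simp [hx]
  · intro t m ht
    refine ⟨[t, fun v => τ (t v)], [m, m], ?_, by simp, ?_, fun v => by simp⟩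
    · exact List.Forall₂.cons ht (List.Forall₂.cons (hT t m ht) List.Forall₂.nil)
    · funext j
      simp; ring

/-- exchange of `a` and `τ a` for all `a` in a list -/
theorem Real.exchList {Λ : Type} [Finite Λ] [DecidableEq Λ] {T : (X → Λ) → (J → ℕ) → Prop}
    {r : Λ → Λ → Prop} (h : Real Λ T r) (τ : Λ → Λ) (hτ : ∀ a, τ (τ a) = a)
    (hT : ∀ t m, T t m → T (fun v => τ (t v)) m) (hr : ∀ a b, r a b → EqvGen r (τ a) (τ b))
    (s : List Λ) (hc : ∀ a ∈ s, T (fun _ => τ a) 0) :
    Real Λ T (fun x y => r x y ∨ (x ∈ s ∧ y = τ x)) := by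
  induction s with
  | nil =>
    refine h.mono ?_ (fun t m ht => ht)
    rintro a b (h1 | ⟨h1, _⟩)
    · exact EqvGen.rel _ _ h1
    · simp at h1
  | cons a s ih =>
    have ih' := ih (fun a ha => hc a (List.mem_cons_of_mem _ ha))
    have h2 := ih'.exch τ hτ hT ?_ a (hc a List.mem_cons_self)
    · refine h2.mono ?_ (fun t m ht => ht)
      rintro x y (h1 | ⟨h1, rfl⟩)
      · exact EqvGen.rel _ _ (Or.inl (Or.inl h1))
      · rcases List.mem_cons.1 h1 with rfl | h1
        · exact EqvGen.rel _ _ (Or.inr ⟨rfl, rfl⟩)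
        · exact EqvGen.rel _ _ (Or.inl (Or.inr ⟨h1, rfl⟩))
    · rintro x y (h1 | ⟨h1, rfl⟩)
      · exact eqvGen_mono (fun _ _ h => Or.inl h) (hr x y h1)
      · rw [hτ]
        exact EqvGen.symm _ _ (EqvGen.rel _ _ (Or.inr ⟨h1, rfl⟩))

/-- reversal of lists -/
def LL.rev {Λ : Type} {k : ℕ} (l : LL Λ k) : LL Λ k := ⟨l.1.reverse, by simpa using l.2⟩

theorem LL.rev_rev {Λ : Type} {k : ℕ} (l : LL Λ k) : l.rev.rev = l := by
  apply Subtype.ext
  simp [LL.rev]

theorem TL_rev {Λ : Type} {T : (X → Λ) → (J → ℕ) → Prop} {k : ℕ} (t : X → LL Λ k) (m : J → ℕ)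
    (h : TL T k t m) : TL T k (fun v => (t v).rev) m := by
  obtain ⟨ts, ms, hT, hlen, hm, htv⟩ := h
  refine ⟨ts.reverse, ms.reverse, List.forall₂_reverse_iff.2 hT, by simpa using hlen, ?_, ?_⟩
  · rw [hm, List.sum_reverse]
  · intro v
    simp [LL.rev, htv v]

theorem rL_rev {Λ : Type} [DecidableEq Λ] (r : Λ → Λ → Prop) (b : Λ) (k : ℕ) (l l' : LL Λ k)
    (h : rL r b k l l') : rL r b k l.rev l'.rev := by
  rcases h with h | h
  · left
    simp only [LL.rev, List.filter_reverse]
    rw [h]
  · right
    exact List.forall₂_reverse_iff.2 h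

/-- deletion of `b` together with the reversal of lists over a given list of pairs -/
theorem Real.copRev {Λ : Type} [Finite Λ] [DecidableEq Λ] {T : (X → Λ) → (J → ℕ) → Prop}
    {r : Λ → Λ → Prop} (h : Real Λ T r) (b : Λ) (hb : T (fun _ => b) 0) (k : ℕ) (c d : Λ)
    (hc : T (fun _ => c) 0) (hd : T (fun _ => d) 0) (hk : 2 ≤ k) :
    Real (LL Λ k) (TL T k) (fun x y => rL r b k x y ∨ (x.1 = [c, d] ∧ y.1 = [d, c])) := by
  have h1 := (h.cop b hb k).exch LL.rev LL.rev_rev TL_rev
    (fun x y hxy => EqvGen.rel _ _ (rL_rev r b k x y hxy)) ⟨[c, d], by simpa using hk⟩ ?_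
  · refine h1.mono ?_ (fun t m ht => ht)
    rintro x y (h2 | ⟨h2, h3⟩)
    · exact EqvGen.rel _ _ (Or.inl h2)
    · refine EqvGen.rel _ _ (Or.inr ⟨Subtype.ext h2, Subtype.ext ?_⟩)
      rw [h3]
      simp [LL.rev]
  · refine ⟨[fun _ => d, fun _ => c], [0, 0], ?_, by simpa using hk, by simp, fun v => ?_⟩
    · exact List.Forall₂.cons hd (List.Forall₂.cons hc List.Forall₂.nil)
    · simp [LL.rev]

/-- rotation of `a`, `ρ a`, `ρ (ρ a)` for a map `ρ` of order three -/
theorem Real.rot {Λ : Type} [Finite Λ] [DecidableEq Λ] {T : (X → Λ) → (J → ℕ) → Prop}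
    {r : Λ → Λ → Prop} (h : Real Λ T r) (ρ : Λ → Λ) (hρ : ∀ a, ρ (ρ (ρ a)) = a)
    (hT : ∀ t m, T t m → T (fun v => ρ (t v)) m) (hr : ∀ a b, r a b → EqvGen r (ρ a) (ρ b))
    (a : Λ) (hc : T (fun _ => a) 0) :
    Real Λ T (fun x y => r x y ∨ ((x = a ∨ x = ρ a ∨ x = ρ (ρ a)) ∧ y = ρ x)) := by
  by_cases hne : ρ a = a
  · refine h.mono ?_ (fun t m ht => ht)
    rintro x y (h1 | ⟨h1, rfl⟩)
    · exact EqvGen.rel _ _ h1
    · have hx : x = a := by
        rcases h1 with h1 | h1 | h1
        · exact h1
        · rw [h1, hne]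
        · rw [h1, hne, hne]
      rw [hx, hne]; exact EqvGen.refl _
  · have hne2 : ρ (ρ a) ≠ a := by
      intro h'
      apply hne
      have h2 := hρ a
      rw [h'] at h2
      exact h2
    have hc1 := hT _ _ hc
    have hc2 := hT _ _ hc1
    intro K _
    refine (h.copRev a hc 3 (ρ a) (ρ (ρ a)) hc1 hc2 (by norm_num) K).comap 3 (by norm_num)
      (fun x => ⟨[x, ρ x, ρ (ρ x)], by simp⟩) ?_ ?_
    · rintro x y (hxy | ⟨hx, rfl⟩)
      · refine EqvGen.rel _ _ (Or.inl (Or.inr ?_))
        have h1 : EqvGen r (ρ x) (ρ y) := hr x y hxy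
        have h2 : EqvGen r (ρ (ρ x)) (ρ (ρ y)) := eqvGen_map ρ hr h1
        exact List.Forall₂.cons (EqvGen.rel _ _ hxy) (List.Forall₂.cons h1
          (List.Forall₂.cons h2 List.Forall₂.nil))
      · -- the three lists
        have h0 : EqvGen (fun x y : LL Λ 3 => rL r a 3 x y ∨
            (x.1 = [ρ a, ρ (ρ a)] ∧ y.1 = [ρ (ρ a), ρ a]))
            ⟨[a, ρ a, ρ (ρ a)], by simp⟩ ⟨[ρ a, ρ (ρ a), a], by simp⟩ := by
          refine EqvGen.rel _ _ (Or.inl (Or.inl ?_))
          simp [hne, hne2]
        have h1 : EqvGen (fun x y : LL Λ 3 => rL r a 3 x y ∨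
            (x.1 = [ρ a, ρ (ρ a)] ∧ y.1 = [ρ (ρ a), ρ a]))
            ⟨[ρ a, ρ (ρ a), a], by simp⟩ ⟨[ρ (ρ a), a, ρ a], by simp⟩ := by
          refine EqvGen.trans _ ⟨[ρ a, ρ (ρ a)], by simp⟩ _ (EqvGen.rel _ _ (Or.inl (Or.inl ?_)))
            (EqvGen.trans _ ⟨[ρ (ρ a), ρ a], by simp⟩ _ (EqvGen.rel _ _ (Or.inr ⟨rfl, rfl⟩))
              (EqvGen.rel _ _ (Or.inl (Or.inl ?_))))
          · simp [hne, hne2]
          · simp [hne, hne2]
        rcases hx with rfl | rfl | rfl
        · simpa only [hρ] using h0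
        · simpa only [hρ] using h1
        · simp only [hρ]
          exact ((h0.trans _ _ _ h1).symm)
    · intro t m ht
      have h1 := hT _ _ ht
      have h2 := hT _ _ h1
      refine ⟨[t, fun v => ρ (t v), fun v => ρ (ρ (t v))], [m, m, m], ?_, by simp, ?_,
        fun v => by simp⟩
      · exact List.Forall₂.cons ht (List.Forall₂.cons h1 (List.Forall₂.cons h2 List.Forall₂.nil))
      · funext j
        simp; ring

/-- rotation for all members of a list -/
theorem Real.rotList {Λ : Type} [Finite Λ] [DecidableEq Λ] {T : (X → Λ) → (J → ℕ) → Prop}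
    {r : Λ → Λ → Prop} (h : Real Λ T r) (ρ : Λ → Λ) (hρ : ∀ a, ρ (ρ (ρ a)) = a)
    (hT : ∀ t m, T t m → T (fun v => ρ (t v)) m) (hr : ∀ a b, r a b → EqvGen r (ρ a) (ρ b))
    (s : List Λ) (hc : ∀ a ∈ s, T (fun _ => a) 0) :
    Real Λ T (fun x y => r x y ∨ ∃ a ∈ s, (x = a ∨ x = ρ a ∨ x = ρ (ρ a)) ∧ y = ρ x) := by
  induction s with
  | nil =>
    refine h.mono ?_ (fun t m ht => ht)
    rintro a b (h1 | ⟨a, h1, _⟩)
    · exact EqvGen.rel _ _ h1
    · simp at h1
  | cons a s ih =>
    have ih' := ih (fun a ha => hc a (List.mem_cons_of_mem _ ha))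
    have h2 := ih'.rot ρ hρ hT ?_ a (hc a List.mem_cons_self)
    · refine h2.mono ?_ (fun t m ht => ht)
      rintro x y (h1 | ⟨a', h1, h3, rfl⟩)
      · exact EqvGen.rel _ _ (Or.inl (Or.inl h1))
      · rcases List.mem_cons.1 h1 with rfl | h1
        · exact EqvGen.rel _ _ (Or.inr ⟨h3, rfl⟩)
        · exact EqvGen.rel _ _ (Or.inl (Or.inr ⟨a', h1, h3, rfl⟩))
    · rintro x y (h1 | ⟨a', h1, h3, rfl⟩)
      · exact eqvGen_mono (fun _ _ h => Or.inl h) (hr x y h1)
      · refine EqvGen.rel _ _ (Or.inr ⟨a', h1, ?_, rfl⟩)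
        rcases h3 with rfl | rfl | rfl
        · right; left; rfl
        · right; right; rfl
        · left; rw [hρ]

end H85.Blocks
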