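import Pool.Agent.H85.Blocks.LemD

/-!
The chain of labels leading to a constant label for the template 112233.
-/

namespace H85.Blocks

open Relation

/-- the first label: it can be realized -/
theorem real_cls : Real (Fin 4) (fun t m => t = (fun v => cls v.1) ∧ m = fun _ => 1)
    (fun _ _ => False) := by
  intro K _
  obtain ⟨k, d, hd, hD⟩ := lemD K
  refine (real_T0.cop 2 (Or.inr ⟨2, rfl, rfl⟩) k K).subst d hd (fun Φ hΦ => ?_)
  classical
  set F₁ : List A → K := fun l => if h : l.length ≤ k then Φ ⟨l, h⟩ else Φ ⟨[], by simp⟩ with hF₁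
  obtain ⟨P, hP1, hP2, hP3⟩ := hD F₁ (by
    intro l l' hl hl' hll
    simp only [hF₁]
    rw [dif_pos hl, dif_pos hl']
    exact hΦ _ _ (Or.inl hll))
  have hex : ∃ Φ' : Fin 4 → K, ∀ v : X, Φ' (cls v.1) = F₁ (P.map (ev v.1)) := by
    refine ⟨fun c => if h : ∃ v : X, cls v.1 = c then F₁ (P.map (ev h.choose.1))
      else Φ ⟨[], by simp⟩, fun v => ?_⟩
    have hex : ∃ v' : X, cls v'.1 = cls v.1 := ⟨v, rfl⟩
    refine (dif_pos hex).trans ?_
    exact hP3 hex.choose.1 v.1 hex.choose.2 v.2 hex.choose_spec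
  obtain ⟨Φ', hΦ'⟩ := hex
  refine ⟨fun c => {x | ∃ v : X, cls v.1 = c ∧ x.1 = P.map (ev v.1)}, Φ',
    fun a b hab => hab.elim, ?_, ?_⟩
  · rintro c x ⟨v, rfl, hx⟩
    rw [hΦ' v]
    simp only [hF₁]
    rw [dif_pos (by rw [List.length_map]; exact hP1)]
    congr 1
    exact Subtype.ext hx
  · rintro t m ⟨rfl, rfl⟩
    refine ⟨fun v => ⟨P.map (ev v.1), by rw [List.length_map]; exact hP1⟩,
      ⟨P.map (fun x v => ev v.1 x), P.map (fun x j => ind x j), ?_, ?_, ?_, ?_⟩,
      fun v => ⟨v, rfl, rfl⟩⟩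
    · rw [List.forall₂_map_left_iff, List.forall₂_map_right_iff, List.forall₂_same]
      intro x _
      rcases x with a | j
      · refine Or.inr ⟨a, ?_, ?_⟩
        · rfl
        · funext j
          simp
      · refine Or.inl ⟨j, ?_, ?_⟩
        · rfl
        · funext j'
          by_cases h : j = j'
          · subst h; simp [ind_inr]
          · simp [ind_inr, h, Ne.symm h]
    · rw [List.length_map]; exact hP1
    · funext j
      rw [← hP2 j]
      have h1 : ∀ Q : List (A ⊕ J), ((Q.map (fun x j => ind x j)).sum) j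
          = (Q.map (fun x => ind x j)).sum := by
        intro Q
        induction Q with
        | nil => simp
        | cons x Q ih => simp [ih]
      rw [h1]
      simp
    · intro v
      rw [List.map_map]
      rfl

/-- the family generated by one label function of uniform degree `n` -/
def Fam {Λ : Type} (f : (J → A) → Λ) (n : ℕ) (t : X → Λ) (m : J → ℕ) : Prop :=
  (∃ (g : J → J) (hg : Function.Bijective g), t = (fun v => f (v.comp g hg).1) ∧ m = fun _ => n) ∨
    (∃ v₀ : X, t = (fun _ => f v₀.1) ∧ m = 0)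

theorem comp_comp (v : X) (g g' : J → J) (hg : Function.Bijective g) (hg' : Function.Bijective g') :
    (v.comp g hg).comp g' hg' = v.comp (g ∘ g') (hg.comp hg') := rfl

/-- from one label function to the generated family -/
theorem Real.fam {Λ : Type} {T : (X → Λ) → (J → ℕ) → Prop} {r : Λ → Λ → Prop}
    (h : Real Λ T r) (f : (J → A) → Λ) (n : ℕ) (hf : T (fun v => f v.1) (fun _ => n)) :
    Real Λ (Fam f n) r := by
  refine (h.addPerm.addConst).mono (fun a b hab => EqvGen.rel _ _ hab) ?_
  rintro t m (⟨g, hg, rfl, rfl⟩ | ⟨v₀, rfl, rfl⟩)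
  · exact Or.inl ⟨_, n, g, hg, hf, rfl, rfl⟩
  · exact Or.inr ⟨fun v => f v.1, fun _ => n, v₀,
      ⟨fun v => f v.1, n, id, Function.bijective_id, hf, rfl, rfl⟩, rfl, rfl⟩

/-- swap of the two patterns 1212 and 2121 -/
def sw : Fin 4 → Fin 4 := ![0, 2, 1, 3]

/-- reversal of the order of the blocks -/
def rv : J → J := ![5, 4, 3, 2, 1, 0]

theorem rv_bij : Function.Bijective rv := by decide

theorem cls_rv (v : J → A) : IsX v → cls (fun j => v (rv j)) = sw (cls v) := by
  revert v
  refine all_words ?_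
  decide +kernel

/-- number of letters 2 between the letters 1 -/
def delta (v : J → A) : Fin 3 := ![0, 1, 1, 2] (cls v)

/-- representatives -/
def rep1 : Fin 3 → Fin 4 := ![0, 1, 3]

theorem real_delta : Real (Fin 3) (Fam delta 1) (fun _ _ => False) := by
  have h1 := real_cls.fam cls 1 ⟨rfl, rfl⟩
  have h2 := h1.exch sw (by decide) ?_ (fun a b hab => hab.elim) 1
    (Or.inr ⟨⟨![1, 0, 1, 0, 2, 2], by decide⟩, by
      funext _
      show sw 1 = cls ![1, 0, 1, 0, 2, 2]
      decide +kernel, rfl⟩)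
  · have h3 := h2.coarsen rep1
    refine h3.fam delta 1 ⟨fun v => cls v.1, Or.inl ⟨id, Function.bijective_id, rfl, rfl⟩, ?_⟩
    intro v
    have key : ∀ c : Fin 4, EqvGen (fun x y => False ∨ x = 1 ∧ y = sw 1) c
        (rep1 ((![0, 1, 1, 2] : Fin 4 → Fin 3) c)) := by
      intro c
      fin_cases c
      · exact EqvGen.refl _
      · exact EqvGen.refl _
      · exact EqvGen.symm _ _ (EqvGen.rel _ _ (Or.inr ⟨rfl, rfl⟩))
      · exact EqvGen.refl _
    exact key _
  · rintro t m (⟨g, hg, rfl, rfl⟩ | ⟨v₀, rfl, rfl⟩)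
    · refine Or.inl ⟨g ∘ rv, hg.comp rv_bij, ?_, rfl⟩
      funext v
      rw [← comp_comp v g rv hg rv_bij]
      exact (cls_rv _ (v.comp g hg).2).symm
    · refine Or.inr ⟨v₀.comp rv rv_bij, ?_, rfl⟩
      funext _
      exact (cls_rv _ v₀.2).symm

/-- powers are closed under permutations of the coordinates -/
theorem Tpow_perm {Λ : Type} {M : ℕ} {T : (X → Λ) → (J → ℕ) → Prop} (σ : Fin M → Fin M)
    (hσ : Function.Bijective σ) (t : X → Fin M → Λ) (m : J → ℕ) (h : Tpow T t m) :
    Tpow T (fun v i => t v (σ i)) m := by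
  obtain ⟨ms, h1, h2⟩ := h
  refine ⟨fun i => ms (σ i), fun i => h1 (σ i), ?_⟩
  rw [h2]
  exact (Equiv.sum_comp (Equiv.ofBijective σ hσ) ms).symm

/-- action of words in generators -/
def actW {M n : ℕ} {Λ : Type} (gen : Fin n → Fin M → Fin M) : List (Fin n) → (Fin M → Λ) → Fin M → Λ
  | [], x => x
  | i :: w, x => actW gen w (fun j => x (gen i j))

/-- relation given by the generators -/
def Rgen {M n : ℕ} {Λ : Type} (gen : Fin n → Fin M → Fin M) (x y : Fin M → Λ) : Prop :=
  ∃ i, y = fun j => x (gen i j)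

theorem eqv_actW {M n : ℕ} {Λ : Type} (gen : Fin n → Fin M → Fin M) : ∀ (w : List (Fin n))
    (x : Fin M → Λ), EqvGen (Rgen gen) x (actW gen w x) := by
  intro w
  induction w with
  | nil => intro x; exact EqvGen.refl _
  | cons i w ih =>
    intro x
    exact EqvGen.trans _ _ _ (EqvGen.rel _ _ ⟨i, rfl⟩) (ih _)

/-- the generators of the alternating group of degree four -/
def gen4 : Fin 3 → Fin 4 → Fin 4 := ![![1, 0, 3, 2], ![2, 3, 0, 1], ![0, 2, 3, 1]]

theorem gen4_bij (i : Fin 3) : Function.Bijective (gen4 i) := by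
  revert i; decide

theorem const_pow {Λ : Type} {M : ℕ} {T : (X → Λ) → (J → ℕ) → Prop}
    (hT : ∀ c, T (fun _ => c) 0) (x : Fin M → Λ) : Tpow T (fun _ => x) 0 :=
  ⟨fun _ => 0, fun i => hT (x i), by simp⟩

theorem rpow_perm {Λ : Type} {M : ℕ} {r : Λ → Λ → Prop} (σ : Fin M → Fin M) (a b : Fin M → Λ)
    (h : rpow r a b) : rpow r (fun i => a (σ i)) (fun i => b (σ i)) := fun i => h (σ i)

theorem pow_sym4 {T : (X → Fin 3) → (J → ℕ) → Prop} (h : Real (Fin 3) T (fun _ _ => False))
    (hT : ∀ c, T (fun _ => c) 0) : Real (Fin 4 → Fin 3) (Tpow T) (Rgen gen4) := by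
  have h0 := h.pow 4
  have h1 := h0.exchList (fun x i => x (gen4 0 i)) (by decide +kernel)
    (fun t m ht => Tpow_perm _ (gen4_bij 0) t m ht)
    (fun a b hab => EqvGen.rel _ _ (rpow_perm _ a b hab))
    (Finset.univ : Finset (Fin 4 → Fin 3)).toList (fun a _ => const_pow hT _)
  have h1' : Real (Fin 4 → Fin 3) (Tpow T) (fun x y => y = fun i => x (gen4 0 i)) :=
    h1.mono (fun a b hab => EqvGen.rel _ _ (Or.inr ⟨by simp, hab⟩)) (fun t m ht => ht)
  have h2 := h1'.exchList (fun x i => x (gen4 1 i)) (by decide +kernel)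
    (fun t m ht => Tpow_perm _ (gen4_bij 1) t m ht)
    (fun a b hab => EqvGen.rel _ _ (by
      subst hab
      funext i
      have : gen4 1 (gen4 0 i) = gen4 0 (gen4 1 i) := by revert i; decide
      simp only [this]))
    (Finset.univ : Finset (Fin 4 → Fin 3)).toList (fun a _ => const_pow hT _)
  have h2' : Real (Fin 4 → Fin 3) (Tpow T) (fun x y => (y = fun i => x (gen4 0 i)) ∨
      (y = fun i => x (gen4 1 i))) :=
    h2.mono (fun a b hab => EqvGen.rel _ _ (by
      rcases hab with hab | hab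
      · exact Or.inl hab
      · exact Or.inr ⟨by simp, hab⟩)) (fun t m ht => ht)
  have h3 := h2'.rotList (fun x i => x (gen4 2 i)) (by decide +kernel)
    (fun t m ht => Tpow_perm _ (gen4_bij 2) t m ht)
    (by
      rintro a b (rfl | rfl)
      · -- conjugation of the first involution
        have e : (fun i => (fun i => a (gen4 0 i)) (gen4 2 i))
            = fun i => (fun i => a (gen4 2 i)) ((gen4 0 ∘ gen4 1) i) := by
          funext i
          have : gen4 0 (gen4 2 i) = gen4 2 ((gen4 0 ∘ gen4 1) i) := by revert i; decide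
          simp only [this]
        rw [e]
        exact EqvGen.trans _ (fun i => (fun i => a (gen4 2 i)) (gen4 0 i)) _
          (EqvGen.rel _ _ (Or.inl rfl)) (EqvGen.rel _ _ (Or.inr rfl))
      · have e : (fun i => (fun i => a (gen4 1 i)) (gen4 2 i))
            = fun i => (fun i => a (gen4 2 i)) (gen4 0 i) := by
          funext i
          have : gen4 1 (gen4 2 i) = gen4 2 (gen4 0 i) := by revert i; decide
          simp only [this]
        rw [e]
        exact EqvGen.rel _ _ (Or.inl rfl))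
    (Finset.univ : Finset (Fin 4 → Fin 3)).toList (fun a _ => const_pow hT _)
  refine h3.mono (fun a b hab => EqvGen.rel _ _ ?_) (fun t m ht => ht)
  obtain ⟨i, rfl⟩ := hab
  have hi : i = 0 ∨ i = 1 ∨ i = 2 := by revert i; decide
  rcases hi with rfl | rfl | rfl
  · exact Or.inl (Or.inl rfl)
  · exact Or.inl (Or.inr rfl)
  · exact Or.inr ⟨a, by simp, Or.inl rfl, rfl⟩

end H85.Blocks
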