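import Pool.Agent.H85.Blocks.Ops

/-!
Rigid shifts: the first level of the argument, by Ramsey's theorem and van der Waerden's theorem.
-/

namespace H85.Blocks

/-- for each letter `0` of the list, the number of letters `1` before it (plus `k`) -/
def code : ℕ → List A → List ℕ
  | _, [] => []
  | k, a :: l => if a = 0 then k :: code k l else if a = 1 then code (k + 1) l else code k l

theorem code_nil (k : ℕ) : code k [] = [] := rfl

theorem code_zero (k : ℕ) (l : List A) : code k (0 :: l) = k :: code k l := rfl

theorem code_one (k : ℕ) (l : List A) : code k (1 :: l) = code (k + 1) l := rfl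

theorem code_two (k : ℕ) (l : List A) : code k (2 :: l) = code k l := rfl

theorem A_cases (a : A) : a = 0 ∨ a = 1 ∨ a = 2 := by
  revert a; decide

theorem code_ge : ∀ (l : List A) (k x : ℕ), x ∈ code k l → k ≤ x := by
  intro l
  induction l with
  | nil => intro k x hx; simp [code_nil] at hx
  | cons a l ih =>
    intro k x hx
    rcases A_cases a with rfl | rfl | rfl
    · rw [code_zero, List.mem_cons] at hx
      rcases hx with rfl | hx
      · exact le_rfl
      · exact ih k x hx
    · rw [code_one] at hx
      have := ih (k + 1) x hx
      omega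
    · rw [code_two] at hx
      exact ih k x hx

theorem code_filter : ∀ (l : List A) (k : ℕ), code k (l.filter (fun x => x ≠ 2)) = code k l := by
  intro l
  induction l with
  | nil => intro k; rfl
  | cons a l ih =>
    intro k
    rcases A_cases a with rfl | rfl | rfl
    · rw [List.filter_cons_of_pos (by decide), code_zero, code_zero, ih]
    · rw [List.filter_cons_of_pos (by decide), code_one, code_one, ih]
    · rw [List.filter_cons_of_neg (by decide), code_two, ih]

theorem count_filter (l : List A) : (l.filter (fun x => x ≠ 2)).count 1 = l.count 1 := by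
  rw [List.count_filter]
  decide

theorem code_inj : ∀ (l l' : List A) (k : ℕ), (∀ x ∈ l, x ≠ 2) → (∀ x ∈ l', x ≠ 2) →
    code k l = code k l' → l.count 1 = l'.count 1 → l = l' := by
  intro l
  induction l with
  | nil =>
    intro l' k _ h2 hc hn
    cases l' with
    | nil => rfl
    | cons a l' =>
      rcases A_cases a with rfl | rfl | rfl
      · rw [code_zero, code_nil] at hc
        simp at hc
      · simp at hn
      · exact absurd rfl (h2 2 List.mem_cons_self)
  | cons a l ih =>
    intro l' k h1 h2 hc hn
    cases l' with
    | nil =>
      rcases A_cases a with rfl | rfl | rfl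
      · rw [code_zero, code_nil] at hc
        simp at hc
      · simp at hn
      · exact absurd rfl (h1 2 List.mem_cons_self)
    | cons b l' =>
      have h1' : ∀ x ∈ l, x ≠ 2 := fun x hx => h1 x (List.mem_cons_of_mem _ hx)
      have h2' : ∀ x ∈ l', x ≠ 2 := fun x hx => h2 x (List.mem_cons_of_mem _ hx)
      rcases A_cases a with rfl | rfl | rfl
      · rcases A_cases b with rfl | rfl | rfl
        · rw [code_zero, code_zero, List.cons.injEq] at hc
          rw [ih l' k h1' h2' hc.2 (by simpa using hn)]
        · exfalso
          rw [code_zero, code_one] at hc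
          have := code_ge l' (k + 1) k (hc ▸ List.mem_cons_self)
          omega
        · exact absurd rfl (h2 2 List.mem_cons_self)
      · rcases A_cases b with rfl | rfl | rfl
        · exfalso
          rw [code_zero, code_one] at hc
          have := code_ge l (k + 1) k (hc ▸ List.mem_cons_self)
          omega
        · rw [code_one, code_one] at hc
          rw [ih l' (k + 1) h1' h2' hc (by simpa using hn)]
        · exact absurd rfl (h2 2 List.mem_cons_self)
      · exact absurd rfl (h1 2 List.mem_cons_self)

theorem filter_eq_of_code (l l' : List A) (hc : code 0 l = code 0 l')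
    (hn : l.count 1 = l'.count 1) :
    l.filter (fun x => x ≠ 2) = l'.filter (fun x => x ≠ 2) := by
  apply code_inj _ _ 0
  · intro x hx
    simpa using (List.mem_filter.1 hx).2
  · intro x hx
    simpa using (List.mem_filter.1 hx).2
  · rw [code_filter, code_filter, hc]
  · rw [count_filter, count_filter, hn]

theorem code_replicate_append : ∀ (n k : ℕ) (l : List A),
    code k (List.replicate n 1 ++ l) = code (k + n) l := by
  intro n
  induction n with
  | zero => intro k l; simp
  | succ n ih =>
    intro k l
    rw [List.replicate_succ, List.cons_append, code_one, ih]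
    congr 1
    ring

/-- a word with variables: the variable at the entry `(f, j)` has `f` fixed letters `1` before it -/
def build (N : ℕ) : ℕ → List (ℕ × J) → List (A ⊕ J)
  | k, [] => List.replicate (N - k) (Sum.inl 1)
  | k, (f, j) :: L => List.replicate (f - k) (Sum.inl 1) ++ Sum.inr j :: build N f L

/-- the code of a word with variables -/
def tr (v : J → A) : ℕ → List (ℕ × J) → List ℕ
  | _, [] => []
  | dr, (f, j) :: L => if v j = 0 then (f + dr) :: tr v dr L else
      if v j = 1 then tr v (dr + 1) L else tr v dr L

theorem tr_cons_zero {v : J → A} {j : J} (h : v j = 0) (dr f : ℕ) (L : List (ℕ × J)) :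
    tr v dr ((f, j) :: L) = (f + dr) :: tr v dr L := by simp [tr, h]

theorem tr_cons_one {v : J → A} {j : J} (h : v j = 1) (dr f : ℕ) (L : List (ℕ × J)) :
    tr v dr ((f, j) :: L) = tr v (dr + 1) L := by simp [tr, h]

theorem tr_cons_two {v : J → A} {j : J} (h : v j = 2) (dr f : ℕ) (L : List (ℕ × J)) :
    tr v dr ((f, j) :: L) = tr v dr L := by simp [tr, h]

@[simp] theorem ev_inl (v : J → A) (a : A) : ev v (Sum.inl a) = a := rfl

@[simp] theorem ev_inr (v : J → A) (j : J) : ev v (Sum.inr j) = v j := rfl

theorem code_build (v : J → A) (N : ℕ) : ∀ (L : List (ℕ × J)) (k dr : ℕ),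
    (k :: L.map Prod.fst).Pairwise (· ≤ ·) →
    code (k + dr) ((build N k L).map (ev v)) = tr v dr L := by
  intro L
  induction L with
  | nil =>
    intro k dr _
    have := code_replicate_append (N - k) (k + dr) []
    simpa [build, tr, code_nil] using this
  | cons p L ih =>
    obtain ⟨f, j⟩ := p
    intro k dr h
    rw [List.map_cons, List.pairwise_cons] at h
    have hkf : k ≤ f := h.1 f (by simp)
    have hL := h.2
    have e1 : (build N k ((f, j) :: L)).map (ev v)
        = List.replicate (f - k) 1 ++ v j :: (build N f L).map (ev v) := by
      simp [build]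
    rw [e1, code_replicate_append]
    have e2 : k + dr + (f - k) = f + dr := by omega
    rw [e2]
    rcases A_cases (v j) with hj | hj | hj
    · rw [hj, code_zero, tr_cons_zero hj, ih f dr hL]
    · rw [hj, code_one, tr_cons_one hj, ← ih f (dr + 1) hL]
      rfl
    · rw [hj, code_two, tr_cons_two hj, ih f dr hL]

theorem count_build (v : J → A) (N : ℕ) : ∀ (L : List (ℕ × J)) (k : ℕ),
    (k :: L.map Prod.fst).Pairwise (· ≤ ·) → (∀ x ∈ k :: L.map Prod.fst, x ≤ N) →
    ((build N k L).map (ev v)).count 1 = (N - k) + L.countP (fun p => v p.2 = 1) := by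
  intro L
  induction L with
  | nil =>
    intro k _ _
    simp [build]
  | cons p L ih =>
    obtain ⟨f, j⟩ := p
    intro k h hN
    rw [List.map_cons, List.pairwise_cons] at h
    have hkf : k ≤ f := h.1 f (by simp)
    have hfN : f ≤ N := hN f (by simp)
    have e1 : (build N k ((f, j) :: L)).map (ev v)
        = List.replicate (f - k) 1 ++ v j :: (build N f L).map (ev v) := by
      simp [build]
    rw [e1, List.count_append, List.count_replicate, List.count_cons, ih f h.2
      (fun x hx => hN x (List.mem_cons_of_mem _ hx)), List.countP_cons]
    simp only [beq_self_eq_true, if_true, beq_iff_eq, decide_eq_true_eq]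
    omega

theorem length_build (N : ℕ) : ∀ (L : List (ℕ × J)) (k : ℕ),
    (k :: L.map Prod.fst).Pairwise (· ≤ ·) → (∀ x ∈ k :: L.map Prod.fst, x ≤ N) →
    (build N k L).length = (N - k) + L.length := by
  intro L
  induction L with
  | nil =>
    intro k _ _
    simp [build]
  | cons p L ih =>
    obtain ⟨f, j⟩ := p
    intro k h hN
    rw [List.map_cons, List.pairwise_cons] at h
    have hkf : k ≤ f := h.1 f (by simp)
    have hfN : f ≤ N := hN f (by simp)
    have e1 : build N k ((f, j) :: L)
        = List.replicate (f - k) (Sum.inl 1) ++ Sum.inr j :: build N f L := rfl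
    rw [e1, List.length_append, List.length_replicate, List.length_cons, ih f h.2
      (fun x hx => hN x (List.mem_cons_of_mem _ hx)), List.length_cons]
    omega

theorem count_build_inr (N : ℕ) (j₀ : J) : ∀ (L : List (ℕ × J)) (k : ℕ),
    ((build N k L).map (fun x => ind x j₀)).sum = L.countP (fun p => p.2 = j₀) := by
  intro L
  induction L with
  | nil =>
    intro k
    simp [build]
  | cons p L ih =>
    obtain ⟨f, j⟩ := p
    intro k
    have e1 : build N k ((f, j) :: L)
        = List.replicate (f - k) (Sum.inl 1) ++ Sum.inr j :: build N f L := rfl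
    rw [e1, List.map_append, List.map_cons, List.sum_append, List.sum_cons, ih f,
      List.countP_cons, ind_inr]
    simp
    ring

theorem tr_append (v : J → A) : ∀ (L1 L2 : List (ℕ × J)) (dr : ℕ),
    tr v dr (L1 ++ L2) = tr v dr L1 ++ tr v (dr + L1.countP (fun p => v p.2 = 1)) L2 := by
  intro L1
  induction L1 with
  | nil => intro L2 dr; simp [tr]
  | cons p L ih =>
    obtain ⟨f, j⟩ := p
    intro L2 dr
    rw [List.cons_append, List.countP_cons]
    rcases A_cases (v j) with hj | hj | hj
    · rw [tr_cons_zero hj, tr_cons_zero hj, ih]
      simp [hj]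
    · rw [tr_cons_one hj, tr_cons_one hj, ih]
      have e : dr + 1 + List.countP (fun p : ℕ × J => decide (v p.2 = 1)) L
          = dr + (List.countP (fun p : ℕ × J => decide (v p.2 = 1)) L + 1) := by ring
      rw [e]
      simp [hj]
    · rw [tr_cons_two hj, tr_cons_two hj, ih]
      simp [hj]

theorem tr_block (v : J → A) (j : J) (φ : ℕ → ℕ) : ∀ (S : List ℕ) (dr : ℕ),
    v j ≠ 1 → tr v dr (S.map (fun s => (φ s, j))) =
      if v j = 0 then S.map (fun s => φ s + dr) else [] := by
  intro S
  induction S with
  | nil => intro dr _; simp [tr]
  | cons s S ih =>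
    intro dr h
    rcases A_cases (v j) with hj | hj | hj
    · rw [List.map_cons, tr_cons_zero hj, ih dr h]
      simp [hj]
    · exact absurd hj h
    · rw [List.map_cons, tr_cons_two hj, ih dr h]
      simp [hj]

theorem tr_block_one (v : J → A) (j : J) (φ : ℕ → ℕ) (hj : v j = 1) : ∀ (S : List ℕ) (dr : ℕ),
    tr v dr (S.map (fun s => (φ s, j))) = [] := by
  intro S
  induction S with
  | nil => intro dr; simp [tr]
  | cons s S ih =>
    intro dr
    rw [List.map_cons, tr_cons_one hj, ih]

theorem countP_block (v : J → A) (j : J) (φ : ℕ → ℕ) (S : List ℕ) :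
    (S.map (fun s => (φ s, j))).countP (fun p => v p.2 = 1) = if v j = 1 then S.length else 0 := by
  induction S with
  | nil => simp
  | cons s S ih =>
    rw [List.map_cons, List.countP_cons, ih]
    by_cases hj : v j = 1
    · simp [hj]
    · simp [hj]

/-- the blocks of `v` with letter `0`, together with the number of earlier blocks with letter `1` -/
def pr (v : J → A) : ℕ → List J → List (J × ℕ)
  | _, [] => []
  | u, j :: js => if v j = 0 then (j, u) :: pr v u js else
      if v j = 1 then pr v (u + 1) js else pr v u js

/-- the pattern of `v` -/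
def pl (v : J → A) : List ℕ := (pr v 0 (List.finRange 6)).map Prod.snd

theorem tr_chunk (v : J → A) (β : ℕ) (C : J → List ℕ) (hC : ∀ j, (C j).length = β) (φ : ℕ → ℕ)
    (c : ℕ) : ∀ (js : List J) (u : ℕ),
    tr v (c + β * u) (js.flatMap (fun j => (C j).map (fun s => (φ s, j)))) =
      (pr v u js).flatMap (fun p => (C p.1).map (fun s => φ s + (c + β * p.2))) := by
  intro js
  induction js with
  | nil => intro u; simp [tr, pr]
  | cons j js ih =>
    intro u
    rw [List.flatMap_cons, tr_append, countP_block, hC]
    rcases A_cases (v j) with hj | hj | hj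
    · rw [tr_block v j φ (C j) _ (by rw [hj]; decide)]
      simp only [hj, if_true, pr]
      rw [List.flatMap_cons, if_neg (by decide), Nat.add_zero, ih u]
    · rw [tr_block_one v j φ hj]
      simp only [hj, if_true, pr]
      have e : c + β * u + β = c + β * (u + 1) := by ring
      rw [e, ih (u + 1), if_neg (by decide), List.nil_append]
    · rw [tr_block v j φ (C j) _ (by rw [hj]; decide)]
      simp only [hj, pr]
      rw [if_neg (by decide), if_neg (by decide), if_neg (by decide), if_neg (by decide),
        List.nil_append, Nat.add_zero, ih u]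

theorem countP_chunk (v : J → A) (β : ℕ) (C : J → List ℕ) (hC : ∀ j, (C j).length = β)
    (φ : ℕ → ℕ) : ∀ (js : List J),
    (js.flatMap (fun j => (C j).map (fun s => (φ s, j)))).countP (fun p => v p.2 = 1) =
      β * js.countP (fun j => v j = 1) := by
  intro js
  induction js with
  | nil => simp
  | cons j js ih =>
    rw [List.flatMap_cons, List.countP_append, countP_block, ih, List.countP_cons, hC]
    by_cases hj : v j = 1
    · simp [hj]; ring
    · simp [hj]

theorem pr_sublist (v : J → A) (C : J → List ℕ) : ∀ (js : List J) (u : ℕ),
    ((pr v u js).flatMap (fun p => C p.1)).Sublist (js.flatMap C) := by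
  intro js
  induction js with
  | nil => intro u; simp [pr]
  | cons j js ih =>
    intro u
    rw [List.flatMap_cons]
    rcases A_cases (v j) with hj | hj | hj
    · simp only [pr, hj, if_true, List.flatMap_cons]
      exact (List.Sublist.refl _).append (ih u)
    · simp only [pr, hj, if_true]
      rw [if_neg (by decide)]
      exact (ih (u + 1)).trans (List.sublist_append_right _ _)
    · simp only [pr, hj]
      rw [if_neg (by decide), if_neg (by decide)]
      exact (ih u).trans (List.sublist_append_right _ _)

theorem flatMap_sublist {α γ : Type} (f g : α → List γ) : ∀ (l : List α),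
    (∀ a ∈ l, (f a).Sublist (g a)) → (l.flatMap f).Sublist (l.flatMap g) := by
  intro l
  induction l with
  | nil => intro _; simp
  | cons a l ih =>
    intro h
    rw [List.flatMap_cons, List.flatMap_cons]
    exact (h a List.mem_cons_self).append (ih (fun b hb => h b (List.mem_cons_of_mem _ hb)))

theorem zipWith_flatMap {α : Type} (φ : ℕ → ℕ → ℕ) (f g : α → List ℕ) : ∀ (l : List α),
    (∀ a ∈ l, (f a).length = (g a).length) →
    List.zipWith φ (l.flatMap f) (l.flatMap g) = l.flatMap (fun a => List.zipWith φ (f a) (g a)) := by
  intro l
  induction l with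
  | nil => intro _; simp
  | cons a l ih =>
    intro h
    rw [List.flatMap_cons, List.flatMap_cons, List.flatMap_cons,
      List.zipWith_append (h a List.mem_cons_self),
      ih (fun b hb => h b (List.mem_cons_of_mem _ hb))]

theorem zipWith_replicate (φ : ℕ → ℕ → ℕ) (x : ℕ) : ∀ (l : List ℕ) (n : ℕ), l.length = n →
    List.zipWith φ l (List.replicate n x) = l.map (fun s => φ s x) := by
  intro l
  induction l with
  | nil => intro n _; simp
  | cons a l ih =>
    intro n hn
    subst hn
    rw [List.length_cons, List.replicate_succ, List.zipWith_cons_cons, ih _ rfl, List.map_cons]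

theorem length_flatMap_const {α γ : Type} (f : α → List γ) (n : ℕ) : ∀ (l : List α),
    (∀ a ∈ l, (f a).length = n) → (l.flatMap f).length = l.length * n := by
  intro l
  induction l with
  | nil => intro _; simp
  | cons a l ih =>
    intro h
    rw [List.flatMap_cons, List.length_append, h a List.mem_cons_self,
      ih (fun b hb => h b (List.mem_cons_of_mem _ hb)), List.length_cons]
    ring

theorem flatMap_congr' {α γ : Type} (f g : α → List γ) : ∀ (l : List α),
    (∀ a ∈ l, f a = g a) → l.flatMap f = l.flatMap g := by
  intro l
  induction l with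
  | nil => intro _; simp
  | cons a l ih =>
    intro h
    rw [List.flatMap_cons, List.flatMap_cons, h a List.mem_cons_self,
      ih (fun b hb => h b (List.mem_cons_of_mem _ hb))]

/-- splitting a list into pieces of equal length -/
theorem split_list {α : Type} (β : ℕ) : ∀ (n : ℕ) (l : List α), l.length = n * β →
    ∃ C : ℕ → List α, (∀ i < n, (C i).length = β) ∧ l = (List.range n).flatMap C := by
  intro n
  induction n with
  | zero =>
    intro l hl
    refine ⟨fun _ => [], by simp, ?_⟩
    have : l = [] := by rw [← List.length_eq_zero_iff]; simpa using hl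
    simpa using this
  | succ n ih =>
    intro l hl
    have hl' : l.length = n * β + β := by rw [hl]; ring
    obtain ⟨C, hC, hCl⟩ := ih (l.take (n * β)) (by rw [List.length_take]; omega)
    refine ⟨fun i => if i = n then l.drop (n * β) else C i, ?_, ?_⟩
    · intro i hi
      by_cases h : i = n
      · simp only [h, if_true, List.length_drop]
        omega
      · simp only [h, if_false]
        exact hC i (by omega)
    · rw [List.range_succ, List.flatMap_append]
      have e1 : (List.range n).flatMap (fun i => if i = n then l.drop (n * β) else C i)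
          = (List.range n).flatMap C := by
        apply flatMap_congr'
        intro i hi
        rw [List.mem_range] at hi
        rw [if_neg (by omega)]
      rw [e1, ← hCl]
      simp

/-- the trace of the complete word -/
theorem tr_full (v : J → A) (hv : (List.finRange 6).countP (fun j => v j = 1) = 2) (β : ℕ)
    (C : ℕ → J → List ℕ) (φ : ℕ → ℕ → ℕ) : ∀ (n : ℕ), (∀ i < n, ∀ j, (C i j).length = β) →
    tr v 0 ((List.range n).flatMap (fun i => (List.finRange 6).flatMap
        (fun j => (C i j).map (fun s => (φ i s, j))))) =
      (List.range n).flatMap (fun i => (pr v 0 (List.finRange 6)).flatMap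
        (fun p => (C i p.1).map (fun s => φ i s + (2 * β * i + β * p.2)))) ∧
    ((List.range n).flatMap (fun i => (List.finRange 6).flatMap
        (fun j => (C i j).map (fun s => (φ i s, j))))).countP (fun p => v p.2 = 1) = 2 * β * n := by
  intro n
  induction n with
  | zero => intro _; simp [tr]
  | succ n ih =>
    intro hC
    obtain ⟨ih1, ih2⟩ := ih (fun i hi => hC i (by omega))
    rw [List.range_succ, List.flatMap_append, List.flatMap_append, tr_append, ih1, ih2,
      List.countP_append, ih2]
    simp only [List.flatMap_cons, List.flatMap_nil, List.append_nil]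
    constructor
    · congr 1
      have h1 := tr_chunk v β (C n) (hC n (by omega)) (φ n) (2 * β * n) (List.finRange 6) 0
      rw [← h1]
      congr 1
      ring
    · rw [countP_chunk v β (C n) (hC n (by omega)), hv]
      ring

end H85.Blocks
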